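import Pool.Agent.NS3.Swp

/-!
# The ordinary trace

`Ph_congr`, `Ph_add`, `Ph_smul`, `Ph_sum`: linearity, by induction. `Ph_pair`: the pair of slots which contains
`j` may be contracted first; by induction, the contractions of disjoint pairs commute.
-/

namespace Pool.Agent.NS3

open Pool.Agent.Helper89.NN

universe u v w

variable {F : Type u} [Field F] [CharZero F] {U : Type v} [AddCommGroup U] [Module F U]
  {ι : Type w} [Fintype ι] {D : SS F U ι}

theorem Ph_congr {i : ℕ} {t t' : List U → F} (h : ∀ l, l.length = 2 * i → t l = t' l) :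
    Ph D i t = Ph D i t' := by
  induction i generalizing t t' with
  | zero => exact h [] rfl
  | succ i ih =>
    show Ph D i (ctε D t) = Ph D i (ctε D t')
    refine ih fun l hl => Finset.sum_congr rfl fun k _ => h _ ?_
    simp only [List.length_cons, hl]
    ring

theorem Ph_add (i : ℕ) (t t' : List U → F) :
    Ph D i (fun l => t l + t' l) = Ph D i t + Ph D i t' := by
  induction i generalizing t t' with
  | zero => rfl
  | succ i ih =>
    show Ph D i (ctε D fun l => t l + t' l) = Ph D i (ctε D t) + Ph D i (ctε D t')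
    rw [← ih]
    refine Ph_congr fun l _ => ?_
    unfold ctε
    exact Finset.sum_add_distrib

theorem Ph_smul (i : ℕ) (c : F) (t : List U → F) :
    Ph D i (fun l => c * t l) = c * Ph D i t := by
  induction i generalizing t with
  | zero => rfl
  | succ i ih =>
    show Ph D i (ctε D fun l => c * t l) = c * Ph D i (ctε D t)
    rw [← ih]
    refine Ph_congr fun l _ => ?_
    unfold ctε
    exact (Finset.mul_sum _ _ _).symm

private theorem Trc_zero (i : ℕ) : Ph D i (fun _ : List U => (0 : F)) = 0 := by
  have h := Ph_smul (D := D) i 0 (fun _ => 0)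
  exact (Ph_congr fun l _ => (mul_zero (0 : F)).symm).trans (h.trans (zero_mul _))

theorem Ph_sum (i : ℕ) {κ : Type*} (s : Finset κ) (t : κ → List U → F) :
    Ph D i (fun l => ∑ k ∈ s, t k l) = ∑ k ∈ s, Ph D i (t k) := by
  classical
  induction s using Finset.induction_on with
  | empty =>
    rw [Finset.sum_empty, ← Trc_zero (D := D) i]
    exact Ph_congr fun l _ => Finset.sum_empty
  | insert a s ha ih =>
    rw [Finset.sum_insert ha, ← ih, ← Ph_add]
    exact Ph_congr fun l _ => Finset.sum_insert ha

private theorem Trc_slt_sum {κ : Type*} (s : Finset κ) (j : ℕ) (g : U → U)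
    (T : κ → List U → F) (L : List U) :
    slt j g (fun l => ∑ b ∈ s, T b l) L = ∑ b ∈ s, slt j g (T b) L := by
  unfold slt
  cases L.drop j with
  | nil => exact Finset.sum_const_zero.symm
  | cons x l₂ => rfl

private theorem Trc_aux {i j : ℕ} {t : List U → F} (h : IsForm D (2 * (i + 1)) t)
    (hj : j < 2 * (i + 1)) (hj2 : j < 2) :
    Ph D (i + 1) t = Ph D i (ctr D (2 * (j / 2)) (slt j D.ε t)) := by
  have _ := hj
  show Ph D i (ctε D t) = _
  refine Ph_congr fun l hl => ?_
  have h0 : 2 * (j / 2) = 0 := by omega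
  rw [h0]
  unfold ctε ctr
  refine Finset.sum_congr rfl fun k _ => ?_
  rw [List.take_zero, List.drop_zero, List.nil_append]
  rcases (show j = 0 ∨ j = 1 by omega) with rfl | rfl
  · exact (slt_apply D.ε t [] (D.f k :: l) (D.e k) rfl).symm
  · have h1 : slt 1 D.ε t (D.e k :: D.f k :: l) = t (D.e k :: D.ε (D.f k) :: l) :=
      slt_apply D.ε t [D.e k] l (D.f k) rfl
    rw [h1, D.ε_e, D.ε_f]
    have h2 := h.smul [] (D.f k :: l) (sp F (D.p k)) (D.e k)
      (by simp only [List.length_nil, List.length_cons, hl]; ring)
    have h3 := h.smul [D.e k] l (sp F (D.p k)) (D.f k)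
      (by simp only [List.length_nil, List.length_cons, hl]; ring)
    exact h2.trans h3.symm

/-- the pair of slots containing `j` may be contracted first -/
theorem Ph_pair {i j : ℕ} {t : List U → F} (h : IsForm D (2 * (i + 1)) t) (hj : j < 2 * (i + 1)) :
    Ph D (i + 1) t = Ph D i (ctr D (2 * (j / 2)) (slt j D.ε t)) := by
  induction i generalizing j t with
  | zero =>
    exact Trc_aux h hj (by omega)
  | succ i ih =>
    by_cases hj2 : j < 2
    · exact Trc_aux h hj hj2
    · obtain ⟨j', rfl⟩ : ∃ j', j = j' + 2 := ⟨j - 2, by omega⟩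
      have h1 : IsForm D (2 * (i + 1)) (ctε D t) :=
        isForm_ctε (by rw [show 2 * (i + 1) + 2 = 2 * (i + 1 + 1) by ring]; exact h)
      show Ph D (i + 1) (ctε D t) =
        Ph D i (ctε D (ctr D (2 * ((j' + 2) / 2)) (slt (j' + 2) D.ε t)))
      rw [ih h1 (j := j') (by omega)]
      refine Ph_congr fun l _ => ?_
      have h2 : 2 * ((j' + 2) / 2) = 2 * (j' / 2) + 2 := by omega
      rw [h2]
      unfold ctr ctε
      have h3 : ∀ L : List U, slt j' D.ε (fun l => ∑ b, t (D.ε (D.e b) :: D.f b :: l)) L =
          ∑ b, slt (j' + 2) D.ε t (D.ε (D.e b) :: D.f b :: L) := by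
        intro L
        rw [Trc_slt_sum Finset.univ j' D.ε (fun b l => t (D.ε (D.e b) :: D.f b :: l)) L]
        refine Finset.sum_congr rfl fun b _ => ?_
        unfold slt
        rw [List.drop_succ_cons, List.drop_succ_cons, List.take_succ_cons, List.take_succ_cons]
        rfl
      simp only [h3]
      rw [Finset.sum_comm]
      refine Finset.sum_congr rfl fun b _ => Finset.sum_congr rfl fun a _ => ?_
      rw [List.drop_succ_cons, List.drop_succ_cons, List.take_succ_cons, List.take_succ_cons]
      rfl

/-- the parity operator cancels -/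
theorem slt_ε_ε {n j : ℕ} {t : List U → F} (hj : j < n) : ∀ l : List U, l.length = n →
    slt j D.ε (slt j D.ε t) l = t l := by
  intro l hl
  have h1 : j < l.length := by omega
  have h2 : l = l.take j ++ l[j] :: l.drop (j + 1) := by
    rw [List.getElem_cons_drop h1, List.take_append_drop]
  have h3 : (l.take j).length = j := by
    rw [List.length_take]
    omega
  rw [h2, slt_apply D.ε _ _ _ _ h3, slt_apply D.ε _ _ _ _ h3, D.εε]

end Pool.Agent.NS3
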