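import Pool.Agent.NS3.Sys
import Pool.Agent.NS3.Trc

/-!
# The ordinary trace of numerically trivial forms vanishes

Let `t` be numerically trivial, with `2i` slots. The terms with `1 - p` in some slot are treated by
contracting the pair of this slot first. The part with `p` in all slots is, by `hrec`, a sum of terms
`Iop p s l` and of restricted terms; the latter are numerically trivial and treated in the same way.
By the linear system `sys` the `s` are numerically trivial, and the trace of `Iop p s l` is the trace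
of `s` or of an algebraic contraction of `s`.
-/

namespace Pool.Agent.NS3

open Pool.Agent.Helper89.NN

universe u v w

variable {F : Type u} [Field F] [CharZero F] {U : Type v} [AddCommGroup U] [Module F U]
  {ι : Type w} [Fintype ι] {D : SS F U ι} {alg : ℕ → (List U → F) → Prop}

lemma core_split {L : List U} {j n : ℕ} (hL : L.length = n) (hj : j < n) :
    ∃ l₁ x l₂, L = l₁ ++ x :: l₂ ∧ l₁.length = j ∧ l₁.length + l₂.length + 1 = n := by
  refine ⟨L.take j, L[j], L.drop (j + 1), ?_, by rw [List.length_take]; omega, ?_⟩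
  · rw [List.cons_getElem_drop_succ, List.take_append_drop]
  · rw [List.length_take, List.length_drop]; omega

/-- `p` in the first `j` slots -/
private def pfx (p : U →ₗ[F] U) (t : List U → F) : ℕ → List U → F
  | 0 => t
  | j + 1 => slt j p (pfx p t j)

private lemma pfx_apply (p : U →ₗ[F] U) (t : List U → F) (n : ℕ) : ∀ (j : ℕ) (l₁ l₂ : List U),
    l₁.length = j → l₁.length + l₂.length = n →
    pfx p t j (l₁ ++ l₂) = t (l₁.map p ++ l₂) := by
  intro j
  induction j with
  | zero =>
    intro l₁ l₂ h1 _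
    rw [List.length_eq_zero_iff.mp h1]
    rfl
  | succ j ih =>
    intro l₁ l₂ h1 h2
    have hne : l₁ ≠ [] := by rintro rfl; simp at h1
    obtain ⟨m, x, rfl⟩ : ∃ m x, l₁ = m ++ [x] :=
      ⟨l₁.dropLast, l₁.getLast hne, (List.dropLast_append_getLast hne).symm⟩
    have hm : m.length = j := by simp at h1; omega
    show slt j p (pfx p t j) _ = _
    rw [List.append_assoc, List.singleton_append, slt_apply _ _ _ _ _ hm,
      ih m (p x :: l₂) hm (by simp at h2 ⊢; omega)]
    simp

private lemma pfx_alg (hA : AlgForms D alg) {p : U →ₗ[F] U} (hps : SlotAlg alg p) {n : ℕ}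
    {t : List U → F} (ht : alg n t) : ∀ j ≤ n, alg n (pfx p t j) := by
  intro j
  induction j with
  | zero => intro _; exact ht
  | succ j ih => intro hj; exact hps n j _ (ih (by omega)) (by omega)

lemma mp_alg (hA : AlgForms D alg) {p : U →ₗ[F] U} (hps : SlotAlg alg p) {n : ℕ}
    {t : List U → F} (ht : alg n t) : alg n (mp p t) := by
  refine hA.congr _ _ _ (pfx_alg hA hps ht n le_rfl) fun l hl => ?_
  have := pfx_apply p t n n l [] hl (by simpa using hl)
  rw [List.append_nil, List.append_nil] at this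
  rw [this]
  rfl

private lemma pfx_Nt (hA : AlgForms D alg) {p : U →ₗ[F] U} (hp : SymEven D p)
    (hps : SlotAlg alg p) {n : ℕ} {t : List U → F} (ht : alg n t) (hn : Nt D alg n t) :
    ∀ j ≤ n, Nt D alg n (pfx p t j) := by
  intro j
  induction j with
  | zero => intro _; exact hn
  | succ j ih =>
    intro hj
    exact Nt_slt hA hp hps (hA.form _ _ (pfx_alg hA hps ht j (by omega))) (ih (by omega))
      (by omega)

private lemma mp_Nt (hA : AlgForms D alg) {p : U →ₗ[F] U} (hp : SymEven D p)
    (hps : SlotAlg alg p) {n : ℕ} {t : List U → F} (ht : alg n t) (hn : Nt D alg n t) :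
    Nt D alg n (mp p t) := by
  refine Nt_congr (pfx_Nt hA hp hps ht hn n le_rfl) fun l hl => ?_
  have := pfx_apply p t n n l [] hl (by simpa using hl)
  rw [List.append_nil, List.append_nil] at this
  rw [this]
  rfl

lemma act_alg (hA : AlgForms D alg) {n : ℕ} {t : List U → F} (ht : alg n t) (ρ : List ℕ)
    (hρ : Valid n ρ) : alg n (act D ρ t) := by
  induction ρ with
  | nil => exact ht
  | cons k ρ ih =>
    exact hA.swap n k _ (ih fun k' hk' => hρ k' (List.mem_cons_of_mem _ hk'))
      (hρ k List.mem_cons_self)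

private lemma sw_map {p : U →ₗ[F] U} (hp : SymEven D p) (k : ℕ) (t : List U → F) (L : List U) :
    sw D k t (L.map p) = sw D k (mp p t) L := by
  unfold sw mp
  rw [← List.map_drop]
  cases L.drop k with
  | nil => rfl
  | cons x m =>
    cases m with
    | nil => rfl
    | cons y m =>
      simp only [List.map_cons, List.map_append, List.map_take, hp.even]

private lemma sw_ext {k : ℕ} {t t' : List U → F} (h : ∀ l, t l = t' l) : sw D k t = sw D k t' := by
  rw [funext h]

private lemma Iop_map {p : U →ₗ[F] U} (hp : SymEven D p) (hpp : ∀ x, p (p x) = p x)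
    (s : List U → F) (l : ℕ) : ∀ L : List U, Iop D LinearMap.id s l (L.map p) =
      Iop D p (mp p s) l L := by
  induction l with
  | zero =>
    intro L
    show ins 0 2 s _ _ = ins 0 2 (mp p s) _ _
    unfold ins mp
    simp only [List.take_zero, List.nil_append, List.drop_zero, zero_add, List.map_drop]
    congr 1
    match L with
    | [] => simp
    | [x] => simp
    | x :: y :: L =>
      show D.B (p x) (p y) = D.B (p x) y
      rw [← hp.symm, hpp]
  | succ l ih =>
    intro L
    show sw D (l + 1) (Iop D LinearMap.id s l) (L.map p) = sw D (l + 1) (Iop D p (mp p s) l) L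
    rw [sw_map hp]
    exact congrFun (sw_ext ih) L

private lemma sw_sum (k : ℕ) {κ : Type*} (s : Finset κ) (t : κ → List U → F) (L : List U) :
    sw D k (fun l => ∑ a ∈ s, t a l) L = ∑ a ∈ s, sw D k (t a) L := by
  unfold sw
  cases L.drop k with
  | nil => simp
  | cons x m =>
    cases m with
    | nil => simp
    | cons y m => simp only [← Finset.sum_add_distrib, ← Finset.sum_sub_distrib, Finset.mul_sum]

private lemma Cop_sum (l : ℕ) {κ : Type*} (s : Finset κ) : ∀ (t : κ → List U → F) (L : List U),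
    Cop D l (fun l => ∑ a ∈ s, t a l) L = ∑ a ∈ s, Cop D l (t a) L := by
  induction l with
  | zero =>
    intro t L
    show ∑ i, ∑ a ∈ s, _ = ∑ a ∈ s, ∑ i, _
    exact Finset.sum_comm
  | succ l ih =>
    intro t L
    show Cop D l (sw D (l + 1) _) L = ∑ a ∈ s, Cop D l (sw D (l + 1) (t a)) L
    rw [← ih]
    congr 1
    funext L'
    exact sw_sum _ _ _ _

/-- the pair of a slot with the parity operator -/
private lemma pair_zero (hA : AlgForms D alg) {i j : ℕ} {t u : List U → F}
    (ih : ∀ t, alg (2 * i) t → Nt D alg (2 * i) t → Ph D i t = 0)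
    (ht : IsForm D (2 * (i + 1)) t) (hj : j < 2 * (i + 1)) (hu : alg (2 * (i + 1)) u)
    (hn : Nt D alg (2 * (i + 1)) u)
    (h : ∀ l, l.length = 2 * (i + 1) → slt j D.ε t l = u l) : Ph D (i + 1) t = 0 := by
  rw [Ph_pair ht hj]
  have h1 : Ph D i (ctr D (2 * (j / 2)) (slt j D.ε t)) = Ph D i (ctr D (2 * (j / 2)) u) :=
    Ph_congr (ctr_congr (n := 2 * i) h (by omega))
  rw [h1]
  exact ih _ (hA.contr (2 * i) _ u hu (by omega)) (Nt_ctr hA (hA.form _ _ hu) hn (by omega))

theorem core (hA : AlgForms D alg) {p : U →ₗ[F] U} (hp : SymEven D p)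
    (hpp : ∀ x, p (p x) = p x) (hps : SlotAlg alg p) (hpe : SlotAlg alg (D.ε ∘ₗ (1 - p)))
    {N : ℕ} {χ : ℤ} (hχ : ∑ i, D.B (p (D.e i)) (D.f i) = χ) (hN : (N : ℤ) < |χ| + 2)
    (hrec : ∀ n, n + 2 ≤ N → ∀ t, alg (n + 2) t →
      ∃ (s : Fin (n + 1) → List U → F) (r : Fin (n + 2) → List U → F), (∀ l, alg n (s l)) ∧
        (∀ j, alg (n + 2) (r j) ∧ Nt D alg (n + 2) (mp p (r j)) ∧
          alg (n + 2) (slt j D.ε (r j)) ∧ Nt D alg (n + 2) (mp p (slt j D.ε (r j)))) ∧
        ∀ L : List U, L.length = n + 2 →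
          t L = ∑ l, Iop D LinearMap.id (s l) l L + ∑ j, r j L) :
    ∀ i, 2 * i ≤ N → ∀ t, alg (2 * i) t → Nt D alg (2 * i) t → Ph D i t = 0 := by
  intro i
  induction i using Nat.strong_induction_on with
  | _ i IH =>
  intro hiN t ht hnt
  cases i with
  | zero =>
    have h := hnt _ hA.one
    show t [] = 0
    have h' : t [] * 1 = 0 := h
    rwa [mul_one] at h'
  | succ i =>
  have ih := IH i (by omega) (by omega)
  have heven : ∀ x, (D.ε ∘ₗ (1 - p)) x = (1 - p) (D.ε x) := by
    intro x
    simp only [LinearMap.comp_apply, LinearMap.sub_apply, Module.End.one_apply, map_sub, hp.even]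
  have hq : SymEven D (D.ε ∘ₗ (1 - p)) := by
    refine ⟨fun x y => ?_, fun x => ?_⟩
    · have h1 : ∀ x y, D.B (D.ε x) y = D.B x (D.ε y) := by
        intro x y
        rw [← D.B_ε (D.ε x) y, D.εε]
      simp only [LinearMap.comp_apply, LinearMap.sub_apply, Module.End.one_apply]
      rw [h1, map_sub, map_sub, map_sub, LinearMap.sub_apply, ← hp.even, hp.symm]
    · rw [heven]
      show _ = D.ε ((D.ε ∘ₗ (1 - p)) x)
      rw [heven (D.ε x) |>.symm]
      simp only [LinearMap.comp_apply, LinearMap.sub_apply, Module.End.one_apply, map_sub,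
        hp.even]
  -- step A: `p` in all slots
  have hA1 : ∀ j ≤ 2 * (i + 1), Ph D (i + 1) (pfx p t j) = Ph D (i + 1) t := by
    intro j
    induction j with
    | zero => intro _; rfl
    | succ j ihj =>
      intro hj
      rw [← ihj (by omega)]
      have ha := pfx_alg hA hps ht j (by omega)
      have hn := pfx_Nt hA hp hps ht hnt j (by omega)
      have fa := hA.form _ _ ha
      have h1 : ∀ L : List U, L.length = 2 * (i + 1) → pfx p t j L =
          pfx p t (j + 1) L + slt j ((1 - p : U →ₗ[F] U)) (pfx p t j) L := by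
        intro L hL
        obtain ⟨l₁, x, l₂, rfl, hl, hn'⟩ := core_split hL (by omega : j < 2 * (i + 1))
        show _ = slt j p (pfx p t j) _ + _
        rw [slt_apply _ _ _ _ _ hl, slt_apply _ _ _ _ _ hl]
        have h2 := fa.add l₁ l₂ (p x) ((1 - p : U →ₗ[F] U) x) hn'
        rw [← h2]
        congr 3
        rw [LinearMap.sub_apply, Module.End.one_apply, add_sub_cancel]
      rw [Ph_congr h1, Ph_add, left_eq_add]
      refine pair_zero hA ih (isForm_slt (j := j) fa (by omega) fun x => ?_) (j := j) (by omega)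
        (hpe _ j _ ha (by omega)) (Nt_slt hA hq hpe fa hn (by omega)) fun L hL => ?_
      · rw [← heven]; rfl
      · obtain ⟨l₁, x, l₂, rfl, hl, hn'⟩ := core_split hL (by omega : j < 2 * (i + 1))
        rw [slt_apply _ _ _ _ _ hl, slt_apply _ _ _ _ _ hl, slt_apply _ _ _ _ _ hl, heven]
  have htp : Ph D (i + 1) (mp p t) = Ph D (i + 1) t := by
    rw [← hA1 _ le_rfl]
    refine Ph_congr fun l hl => ?_
    have := pfx_apply p t (2 * (i + 1)) _ l [] hl (by simpa using hl)
    rw [List.append_nil, List.append_nil] at this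
    rw [this]
    rfl
  rw [← htp]
  -- step B: the decomposition
  obtain ⟨s, r, hs, hr, hdec⟩ := hrec (2 * i) (by omega) t ht
  set s' : Fin (2 * i + 1) → List U → F := fun l => mp p (s l) with hs'
  have has' : ∀ l, alg (2 * i) (s' l) := fun l => mp_alg hA hps (hs l)
  have fs' : ∀ l, IsForm D (2 * i) (s' l) := fun l => hA.form _ _ (has' l)
  have hst : ∀ l, PSt p (2 * i) (s' l) := by
    intro l l₁ l₂ x _
    show s l _ = s l _
    rw [List.map_append, List.map_cons, hpp, List.map_append, List.map_cons]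
  have hdec' : ∀ L : List U, L.length = 2 * (i + 1) →
      mp p t L = ∑ l, Iop D p (s' l) l L + ∑ j, mp p (r j) L := by
    intro L hL
    show t (L.map p) = _
    rw [hdec _ (by rw [List.length_map]; exact hL)]
    congr 1
    exact Finset.sum_congr rfl fun l _ => Iop_map hp hpp _ _ _
  have fI : ∀ l : Fin (2 * i + 1), IsForm D (2 * i + 2) (Iop D p (s' l) l) := fun l =>
    isForm_Iop (fs' l) hp (by omega)
  have hβ : Nt D alg (2 * i + 2) (fun L => ∑ l, Iop D p (s' l) l L) := by
    have h1 := Nt_add (mp_Nt hA hp hps ht hnt)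
      (Nt_smul (Nt_sum Finset.univ fun j _ => (hr j).2.1) (-1))
    refine Nt_congr h1 fun L hL => ?_
    rw [hdec' L hL]
    ring
  -- step C: the linear system
  have hne : ∀ l j : Fin (2 * i + 1), ∃ ρ : List ℕ, Valid (2 * i) ρ ∧ (l ≠ j →
      ∀ s : List U → F, IsForm D (2 * i) s → PSt p (2 * i) s →
      ∀ L, L.length = 2 * i → Cop D l (Iop D p s j) L = act D ρ s L) := by
    intro l j
    by_cases hlj : l = j
    · exact ⟨[], fun k hk => by simp at hk, fun h => absurd hlj h⟩
    · obtain ⟨ρ, h1, h2⟩ := Cop_Iop_ne (D := D) (m := 2 * i) hp (l := l) (j := j) (by omega)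
        (by omega) (fun h => hlj (Fin.ext h))
      exact ⟨ρ, h1, fun _ => h2⟩
  choose ρ hρ hρ' using hne
  have hNs : ∀ l, Nt D alg (2 * i) (s' l) := by
    refine sys hA ρ hρ χ (by push_cast; omega) s' fs' fun l => ?_
    have h1 := Nt_Cop hA (isForm_sum Finset.univ fun l _ => fI l) hβ (l := l) (by omega)
    refine Nt_congr h1 fun L hL => ?_
    rw [Cop_sum, ← Finset.add_sum_erase Finset.univ _ (Finset.mem_univ l),
      Cop_Iop_same (fs' l) hp (by omega) L hL, hχ]
    congr 1
    refine Finset.sum_congr rfl fun j hj => ?_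
    exact (hρ' l j (Finset.ne_of_mem_erase hj).symm _ (fs' j) (hst j) L hL).symm
  -- step D: the traces
  rw [Ph_congr hdec', Ph_add, Ph_sum, Ph_sum]
  have h2 : ∀ j : Fin (2 * i + 2), Ph D (i + 1) (mp p (r j)) = 0 := by
    intro j
    obtain ⟨h1, h2, h3, h4⟩ := hr j
    refine pair_zero hA ih (hA.form _ _ (mp_alg hA hps h1)) (j := j) (by omega)
      (mp_alg hA hps h3) h4 fun L hL => ?_
    obtain ⟨l₁, x, l₂, rfl, hl, hn'⟩ := core_split hL (by omega : (j : ℕ) < 2 * (i + 1))
    rw [slt_apply _ _ _ _ _ hl]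
    unfold mp
    rw [List.map_append, List.map_cons, List.map_append, List.map_cons,
      slt_apply _ _ _ _ _ (by rw [List.length_map]; exact hl), hp.even]
  have h3 : ∀ l : Fin (2 * i + 1), Ph D (i + 1) (Iop D p (s' l) l) = 0 := by
    rintro ⟨l, hl⟩
    show Ph D i (ctε D (Iop D p (s' ⟨l, hl⟩) l)) = 0
    cases l with
    | zero =>
      rw [Ph_congr fun L _ => ctε_Iop_zero (n := L.length) p L rfl, Ph_smul,
        ih _ (has' _) (hNs _), mul_zero]
    | succ l =>
      obtain ⟨σ, hσ, hσ'⟩ := ctε_Iop_succ (D := D) (m := 2 * i) (l := l) hp (by omega)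
      rw [Ph_congr (hσ' _ (fs' _) (hst _))]
      obtain ⟨i', rfl⟩ : ∃ i', i = i' + 1 := ⟨i - 1, by omega⟩
      have ha := act_alg hA (has' ⟨l + 1, hl⟩) σ hσ
      have hn := Nt_act hA (fs' ⟨l + 1, hl⟩) (hNs _) σ hσ
      have fa := hA.form _ _ ha
      rw [Ph_pair (isForm_slt fa (by omega) fun x => rfl) (by omega : l < 2 * (i' + 1))]
      rw [Ph_congr (ctr_congr (n := 2 * i') (fun L hL => slt_ε_ε (n := 2 * (i' + 1)) (by omega) L hL)
        (by omega))]
      exact IH i' (by omega) (by omega) _ (hA.contr (2 * i') _ _ ha (by omega))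
        (Nt_ctr hA fa hn (by omega))
  rw [Finset.sum_eq_zero fun l _ => h3 l, Finset.sum_eq_zero fun j _ => h2 j, add_zero]

end Pool.Agent.NS3
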