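import Pool.Agent.Helper89.NN.Alg

/-!
# Operations on super forms: an operator in one slot, insertion of the form `B` in two slots,
contraction of two slots, words of transpositions, numerically trivial forms, the ordinary trace
-/

namespace Pool.Agent.NS3

open Pool.Agent.Helper89.NN

universe u v w

variable {F : Type u} [Field F] {U : Type v} [AddCommGroup U] [Module F U] {ι : Type w} [Fintype ι]

/-- the operator `g` in the slot `j` -/
def slt (j : ℕ) (g : U → U) (t : List U → F) : List U → F := fun l =>
  match l.drop j with
  | x :: l₂ => t (l.take j ++ g x :: l₂)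
  | _ => 0

/-- the operator `g` in all slots -/
def mp (g : U → U) (t : List U → F) : List U → F := fun l => t (l.map g)

variable (D : SS F U ι)

/-- a word of transpositions of neighbouring slots -/
def act : List ℕ → (List U → F) → List U → F
  | [], t => t
  | k :: ρ, t => sw D k (act ρ t)

/-- the word `ρ` acts on forms with `n` slots -/
def Valid (n : ℕ) (ρ : List ℕ) : Prop := ∀ k ∈ ρ, k + 2 ≤ n

/-- `B (p x₀, x_(l+1)) s (the other slots)`, with the sign rule -/
def Iop (p : U →ₗ[F] U) (s : List U → F) : ℕ → List U → F
  | 0 => ins 0 2 s (fun l => D.B (p (l.getD 0 0)) (l.getD 1 0))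
  | l + 1 => sw D (l + 1) (Iop p s l)

/-- contraction of the slots `0` and `l + 1` -/
def Cop : ℕ → (List U → F) → List U → F
  | 0, t => ctr D 0 t
  | l + 1, t => Cop l (sw D (l + 1) t)

/-- contraction of the first two slots, with the parity operator -/
def ctε (t : List U → F) : List U → F := fun l => ∑ i, t (D.ε (D.e i) :: D.f i :: l)

/-- the ordinary trace: contraction of the slots `2k`, `2k+1`, with the parity operator, for all
`k < i` -/
def Ph : ℕ → (List U → F) → F
  | 0, t => t []
  | i + 1, t => Ph i (ctε D t)

/-- `t` is numerically trivial: its contractions with all algebraic forms vanish. -/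
def Nt (alg : ℕ → (List U → F) → Prop) (n : ℕ) (t : List U → F) : Prop :=
  ∀ s, alg n s → cn D n t s [] [] = 0

/-- `s` does not change if `p` is inserted in any slot -/
def PSt (p : U →ₗ[F] U) (n : ℕ) (s : List U → F) : Prop :=
  ∀ (l₁ l₂ : List U) (x : U), l₁.length + l₂.length + 1 = n → s (l₁ ++ p x :: l₂) = s (l₁ ++ x :: l₂)

/-- a symmetric even operator -/
structure SymEven (g : U →ₗ[F] U) : Prop where
  symm : ∀ x y, D.B (g x) y = D.B x (g y)
  even : ∀ x, g (D.ε x) = D.ε (g x)

/-- the algebraic forms are stable under the operator `g` in any slot -/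
def SlotAlg (alg : ℕ → (List U → F) → Prop) (g : U →ₗ[F] U) : Prop :=
  ∀ n j t, alg n t → j < n → alg n (slt j g t)

variable {D}

lemma slt_apply {j : ℕ} (g : U → U) (t : List U → F) (l₁ l₂ : List U) (x : U)
    (h : l₁.length = j) : slt j g t (l₁ ++ x :: l₂) = t (l₁ ++ g x :: l₂) := by
  unfold slt
  rw [← h, List.drop_left, List.take_left]

end Pool.Agent.NS3
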