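import Mathlib

/-!
# Two lemmas of linear algebra

`dominance`: a homogeneous system of linear equations with integer coefficients and dominant diagonal
has only the zero solution in every field of characteristic `0`, because its determinant is not `0`
over `ℚ`. `stable_mem`: an injective linear map which maps a finite dimensional subspace `W` to
itself maps it onto itself, so `M x ∈ W` implies `x ∈ W`.
-/

namespace Pool.Agent.NS3

universe u v w

/-- the matrix of the system -/
private def domMat {I : Type v} [DecidableEq I] {m : ℕ} (χ : ℤ) (φ : Fin m → I → I)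
    (κ : Fin m → I → ℤ) : Matrix I I ℤ :=
  Matrix.of fun i k => (if i = k then χ else 0) + ∑ j, if φ j i = k then κ j i else 0

private theorem dom_mulVec {R : Type u} [CommRing R] {I : Type v} [Fintype I] [DecidableEq I]
    {m : ℕ} (χ : ℤ) (φ : Fin m → I → I) (κ : Fin m → I → ℤ) (x : I → R) (i : I) :
    (((Int.castRingHom R).mapMatrix (domMat χ φ κ)).mulVec x) i =
      (χ : R) * x i + ∑ j, (κ j i : R) * x (φ j i) := by
  rw [Matrix.mulVec, dotProduct]
  have h1 : ∀ k, ((Int.castRingHom R).mapMatrix (domMat χ φ κ)) i k * x k =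
      (if i = k then (χ : R) * x k else 0) +
        ∑ j, if φ j i = k then (κ j i : R) * x k else 0 := by
    intro k
    rw [RingHom.mapMatrix_apply, Matrix.map_apply, domMat, Matrix.of_apply, map_add, map_sum,
      add_mul, Finset.sum_mul]
    congr 1
    · split_ifs
      · rfl
      · rw [map_zero, zero_mul]
    · refine Finset.sum_congr rfl fun j _ => ?_
      split_ifs
      · rfl
      · rw [map_zero, zero_mul]
  rw [Finset.sum_congr rfl fun k _ => h1 k, Finset.sum_add_distrib, Finset.sum_comm]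
  congr 1
  · rw [Finset.sum_ite_eq, if_pos (Finset.mem_univ _)]
  · refine Finset.sum_congr rfl fun j _ => ?_
    rw [Finset.sum_ite_eq, if_pos (Finset.mem_univ _)]

private theorem dom_det {I : Type v} [Fintype I] [DecidableEq I] {m : ℕ}
    (χ : ℤ) (hχ : (m : ℤ) < |χ|) (φ : Fin m → I → I) (κ : Fin m → I → ℤ)
    (hκ : ∀ j i, |κ j i| ≤ 1) : (domMat χ φ κ).det ≠ 0 := by
  intro hdet
  have h1 : ((Int.castRingHom ℚ).mapMatrix (domMat χ φ κ)).det = 0 := by
    rw [← RingHom.map_det, hdet, map_zero]
  obtain ⟨x, hx, hx0⟩ := Matrix.exists_mulVec_eq_zero_iff.2 h1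
  have hne : Nonempty I := by
    by_contra hI
    rw [not_nonempty_iff] at hI
    exact hx (funext fun i => isEmptyElim i)
  obtain ⟨i, hi⟩ := Finite.exists_max fun i => |x i|
  have h2 := dom_mulVec (R := ℚ) χ φ κ x i
  rw [hx0, Pi.zero_apply] at h2
  have h3 : |(χ : ℚ)| * |x i| ≤ m * |x i| := by
    have h4 : (χ : ℚ) * x i = -∑ j, (κ j i : ℚ) * x (φ j i) := by linarith
    rw [← abs_mul, h4, abs_neg]
    refine (Finset.abs_sum_le_sum_abs _ _).trans ?_
    have h5 : ∀ j ∈ (Finset.univ : Finset (Fin m)), |(κ j i : ℚ) * x (φ j i)| ≤ |x i| := by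
      intro j _
      rw [abs_mul]
      have h6 : |(κ j i : ℚ)| ≤ 1 := by exact_mod_cast hκ j i
      calc |(κ j i : ℚ)| * |x (φ j i)| ≤ 1 * |x i| :=
            mul_le_mul h6 (hi _) (abs_nonneg _) zero_le_one
        _ = |x i| := one_mul _
    refine (Finset.sum_le_sum h5).trans ?_
    rw [Finset.sum_const, Finset.card_univ, Fintype.card_fin, nsmul_eq_mul]
  have h7 : 0 < |x i| := by
    rw [abs_pos]
    intro h0
    apply hx
    funext k
    have h8 := hi k
    rw [h0, abs_zero] at h8
    exact abs_eq_zero.1 (le_antisymm h8 (abs_nonneg _))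
  have h9 : |(χ : ℚ)| ≤ m := le_of_mul_le_mul_right h3 h7
  have h10 : |χ| ≤ (m : ℤ) := by exact_mod_cast h9
  exact absurd hχ (not_lt.2 h10)

theorem dominance {F : Type u} [Field F] [CharZero F] {I : Type v} [Fintype I] {m : ℕ}
    (χ : ℤ) (hχ : (m : ℤ) < |χ|) (u : I → F) (φ : Fin m → I → I) (κ : Fin m → I → ℤ)
    (hκ : ∀ j i, |κ j i| ≤ 1) (h : ∀ i, (χ : F) * u i + ∑ j, (κ j i : F) * u (φ j i) = 0) :
    ∀ i, u i = 0 := by
  classical
  have h1 : ((Int.castRingHom F).mapMatrix (domMat χ φ κ)).det ≠ 0 := by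
    rw [← RingHom.map_det]
    have h2 := dom_det χ hχ φ κ hκ
    rw [eq_intCast]
    exact Int.cast_ne_zero.2 h2
  have h3 : ((Int.castRingHom F).mapMatrix (domMat χ φ κ)).mulVec u = 0 := by
    funext i
    rw [dom_mulVec, h i]
    rfl
  intro i
  rw [Matrix.eq_zero_of_mulVec_eq_zero h1 h3]
  rfl

theorem stable_mem {F : Type u} [Field F] {E : Type v} [AddCommGroup E] [Module F E]
    [FiniteDimensional F E] (M : E →ₗ[F] E) (hM : ∀ x, M x = 0 → x = 0) (W : Submodule F E)
    (hW : ∀ x ∈ W, M x ∈ W) {x : E} (hx : M x ∈ W) : x ∈ W := by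
  have h1 : Function.Injective (M.restrict hW) := by
    rw [injective_iff_map_eq_zero]
    intro y hy
    have h2 : M (y : E) = 0 := by
      have h3 := congrArg Subtype.val hy
      rwa [LinearMap.coe_restrict_apply] at h3
    exact Subtype.ext (hM _ h2)
  obtain ⟨y, hy⟩ := (LinearMap.injective_iff_surjective.1 h1) ⟨M x, hx⟩
  have h4 : M (y : E) = M x := by
    have h5 := congrArg Subtype.val hy
    rwa [LinearMap.coe_restrict_apply] at h5
  have h6 : x - y = 0 := hM _ (by rw [map_sub, h4, sub_self])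
  rw [sub_eq_zero.1 h6]
  exact y.2

end Pool.Agent.NS3
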