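import Pool.Agent.NS3.Trc

/-!
# The nested order of the slots

The outermost pair is `f (a i)` in the first slot and `e (a i)` in the last one. The last slot is moved to the second place; the sign is `1`, since every parity occurs twice among the inner slots. The first two slots are contracted by
`ctε` (`nest_symm`), and induction on `i`; words commute with `ctε` up to a shift by `2`.
-/

namespace Pool.Agent.NS3

open Pool.Agent.Helper89.NN

universe u v w

variable {F : Type u} [Field F] [CharZero F] {U : Type v} [AddCommGroup U] [Module F U]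
  {ι : Type w} [Fintype ι] {D : SS F U ι}

omit [CharZero F] in
private theorem nest_append (ρ₁ ρ₂ : List ℕ) (t : List U → F) :
    act D (ρ₁ ++ ρ₂) t = act D ρ₁ (act D ρ₂ t) := by
  induction ρ₁ with
  | nil => rfl
  | cons k ρ₁ ih =>
    show sw D k (act D (ρ₁ ++ ρ₂) t) = sw D k (act D ρ₁ (act D ρ₂ t))
    rw [ih]

/-- a slot is moved to the end -/
private theorem nest_move {n : ℕ} {t : List U → F} (h : IsForm D n t) {b : Bool} {y : U}
    (hy : D.Par b y) (m : ℕ) : ∀ (k : ℕ) (l₁ l : List U) (q : List Bool), l₁.length = k → l.length = m →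
      k + m + 1 = n → List.Forall₂ (fun z c => D.Par c z) l q →
      act D (List.range' k m) t (l₁ ++ y :: l) = (q.map (sg F b)).prod * t (l₁ ++ (l ++ [y])) := by
  induction m with
  | zero =>
    intro k l₁ l q h1 h2 h3 h4
    obtain rfl := List.length_eq_zero_iff.1 h2
    cases h4
    show t (l₁ ++ [y]) = _
    simp
  | succ m ih =>
    intro k l₁ l q h1 h2 h3 h4
    cases h4 with
    | nil => simp at h2
    | @cons z c l' q' hz hl =>
      have h2' : l'.length = m := by simpa using h2
      have hv : Valid n (List.range' (k + 1) m) := by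
        intro j hj
        rw [List.mem_range'_1] at hj
        omega
      have hf := isForm_act h (List.range' (k + 1) m) hv
      have e1 : act D (List.range' k (m + 1)) t (l₁ ++ y :: z :: l') =
          sw D k (act D (List.range' (k + 1) m) t) (l₁ ++ y :: z :: l') := rfl
      rw [e1, sw_apply hf l₁ l' y z h1 (by omega) hy hz]
      have e2 := ih (k + 1) (l₁ ++ [z]) l' q' (by simp [h1]) h2' (by omega) hl
      have e3 : l₁ ++ z :: y :: l' = (l₁ ++ [z]) ++ y :: l' := by simp
      have e4 : (l₁ ++ [z]) ++ (l' ++ [y]) = l₁ ++ (z :: l' ++ [y]) := by simp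
      rw [e3, e2, e4, List.map_cons, List.prod_cons]
      ring

omit [CharZero F] in
private theorem nest_sign (b : Bool) (q : List Bool) :
    ((q.reverse ++ q).map (sg F b)).prod = 1 := by
  rw [List.map_append, List.prod_append, List.map_reverse, List.prod_reverse, ← List.prod_map_mul]
  have h : (q.map fun c => sg F b c * sg F b c) = q.map fun _ => (1 : F) :=
    List.map_congr_left fun c _ => sg_mul_sg b c
  rw [h]
  simp

omit [CharZero F] in
/-- the order of the dual bases -/
private theorem nest_symm {n : ℕ} {t : List U → F} (h : IsForm D n t) (l : List U)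
    (hl : l.length + 2 = n) : ∑ j, t (D.f j :: D.e j :: l) = ctε D t l := by
  have h1 : ∀ x y, h.lin₂ [] [] l (by simpa using hl) x y = t (x :: y :: l) := fun x y => rfl
  have h2 := D.cup_symm ((h.lin₂ [] [] l (by simpa using hl)).comp D.ε)
  unfold ctε
  have h3 : ∀ j, ((h.lin₂ [] [] l (by simpa using hl)).comp D.ε) (D.e j) (D.f j) =
      t (D.ε (D.e j) :: D.f j :: l) := fun j => rfl
  rw [Finset.sum_congr rfl fun j _ => h3 j] at h2
  rw [h2]
  refine Finset.sum_congr rfl fun j _ => ?_
  rw [LinearMap.comp_apply, D.ε_f, map_smul, LinearMap.smul_apply, smul_eq_mul, ← mul_assoc,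
    sp_mul_sp, one_mul, h1]

/-- words commute with the contraction of the first two slots -/
private theorem nest_ctε {n : ℕ} {t : List U → F} (h : IsForm D (n + 2) t) (ρ : List ℕ)
    (hρ : Valid n ρ) : ∀ l, l.length = n →
      ctε D (act D (ρ.map (fun k => k + 2)) t) l = act D ρ (ctε D t) l := by
  induction ρ with
  | nil =>
    intro l _
    rfl
  | cons k ρ ih =>
    have hk : k + 2 ≤ n := hρ k (List.mem_cons_self)
    have hρ' : Valid n ρ := fun j hj => hρ j (List.mem_cons_of_mem _ hj)
    have hv : Valid (n + 2) (ρ.map (fun k => k + 2)) := by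
      intro j hj
      obtain ⟨j', hj', rfl⟩ := List.mem_map.1 hj
      have := hρ' j' hj'
      omega
    intro l hl
    have e1 : act D ((k :: ρ).map (fun k => k + 2)) t =
        sw D (k + 2) (act D (ρ.map (fun k => k + 2)) t) := rfl
    have e2 : act D (k :: ρ) (ctε D t) = sw D k (act D ρ (ctε D t)) := rfl
    rw [e1, e2, ctε_sw (isForm_act h _ hv) hk l hl]
    exact sw_congr (ih hρ') hk l hl

omit [CharZero F] in
private theorem nest_sum {n : ℕ} (φ : (Fin (n + 1) → ι) → F) :
    ∑ a, φ a = ∑ a : Fin n → ι, ∑ j, φ (Fin.snoc a j) := by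
  rw [Finset.sum_comm, ← Fintype.sum_prod_type' (f := fun j a => φ (Fin.snoc a j))]
  exact (Fintype.sum_equiv (Fin.snocEquiv fun _ => ι) _ _ fun p => rfl).symm

theorem nested (D : SS F U ι) (i : ℕ) : ∃ ρ : List ℕ, Valid (2 * i) ρ ∧ ∀ t : List U → F,
    IsForm D (2 * i) t →
    ∑ a : Fin i → ι, t ((List.ofFn fun k => D.f (a k)).reverse ++ List.ofFn fun k => D.e (a k)) =
      Ph D i (act D ρ t) := by
  induction i with
  | zero =>
    refine ⟨[], fun k hk => absurd hk List.not_mem_nil, fun t _ => ?_⟩
    show _ = t []
    simp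
  | succ i ih =>
    obtain ⟨ρ', hv', ih⟩ := ih
    have hv1 : Valid (2 * (i + 1)) (List.range' 1 (2 * i)) := by
      intro j hj
      rw [List.mem_range'_1] at hj
      omega
    refine ⟨ρ'.map (fun k => k + 2) ++ List.range' 1 (2 * i), ?_, fun t ht => ?_⟩
    · intro j hj
      rcases List.mem_append.1 hj with h | h
      · obtain ⟨j', hj', rfl⟩ := List.mem_map.1 h
        have := hv' j' hj'
        omega
      · exact hv1 j h
    · set t1 : List U → F := act D (List.range' 1 (2 * i)) t with ht1
      have hf1 : IsForm D (2 * i + 2) t1 := isForm_act ht _ hv1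
      rw [nest_append, ← ht1]
      have e1 : Ph D (i + 1) (act D (ρ'.map (fun k => k + 2)) t1) =
          Ph D i (ctε D (act D (ρ'.map (fun k => k + 2)) t1)) := rfl
      rw [e1, Ph_congr (nest_ctε hf1 ρ' hv'), ← ih _ (isForm_ctε hf1), nest_sum]
      refine Finset.sum_congr rfl fun a _ => ?_
      set l : List U := (List.ofFn fun k => D.f (a k)).reverse ++ List.ofFn fun k => D.e (a k)
        with hl
      have hll : l.length = 2 * i := by
        rw [hl, List.length_append, List.length_reverse, List.length_ofFn, List.length_ofFn]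
        omega
      rw [← nest_symm hf1 l (by omega)]
      refine Finset.sum_congr rfl fun j _ => ?_
      have e2 : (List.ofFn fun k => D.f ((Fin.snoc a j : Fin (i + 1) → ι) k)) =
          (List.ofFn fun k => D.f (a k)) ++ [D.f j] := by
        rw [List.ofFn_succ_last]
        simp
      have e3 : (List.ofFn fun k => D.e ((Fin.snoc a j : Fin (i + 1) → ι) k)) =
          (List.ofFn fun k => D.e (a k)) ++ [D.e j] := by
        rw [List.ofFn_succ_last]
        simp
      have e4 : (List.ofFn fun k => D.f ((Fin.snoc a j : Fin (i + 1) → ι) k)).reverse ++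
          (List.ofFn fun k => D.e ((Fin.snoc a j : Fin (i + 1) → ι) k)) =
          [D.f j] ++ (l ++ [D.e j]) := by
        rw [e2, e3, hl]
        simp
      rw [e4]
      set q : List Bool := List.ofFn fun k => D.p (a k) with hq
      have hF : List.Forall₂ (fun z c => D.Par c z) l (q.reverse ++ q) := by
        rw [hl]
        refine List.rel_append ?_ ?_
        · rw [List.forall₂_reverse_iff, hq, List.forall₂_iff_get]
          refine ⟨by simp, fun k h1 h2 => ?_⟩
          simp only [List.get_eq_getElem, List.getElem_ofFn]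
          exact D.par_f _
        · rw [hq, List.forall₂_iff_get]
          refine ⟨by simp, fun k h1 h2 => ?_⟩
          simp only [List.get_eq_getElem, List.getElem_ofFn]
          exact D.par_e _
      have e5 := nest_move ht (D.par_e j) (2 * i) 1 [D.f j] l (q.reverse ++ q) rfl hll (by omega) hF
      rw [nest_sign, one_mul] at e5
      exact e5.symm

end Pool.Agent.NS3
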