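import Pool.Agent.NS3.Sec
import Pool.Agent.NS3.Nest
import Pool.Agent.Helper89.CPB.Core

/-!
# Nilpotence and the sign conjecture up to numerical equivalence for the powers of a generic
complete intersection
-/

namespace Pool.Agent.NS3

open Pool.Agent.Helper29.CPB TT
open Pool.Agent.Helper89.NN hiding vanProj vanProj_mem vanProj_of_ker vanProj_iff vanProj_zero_iff
  vanProj_up vanProj_idem sub_vanProj up_homog dn_homog ker_middle dn_up_apply B_vanProj exists_idem
open Pool.Agent.Helper90.NS hiding sw sg dn_sgn scalar_zero nilpotence_section str_one_ne_zero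
  numCPlus_section
open Pool.Agent.Helper90.NS.CI

universe u v

variable {F : Type u} [Field F] [CharZero F] {Z S : Variety.{u, v} F} {s : ℕ}

/-- `C⁺(Z)` implies nilpotence for `Z` -/
theorem nilpotence_of_cplus_var (hZ : Z.CPlus) : Nilpotence Z := by
  intro a ha hn
  refine NumTriv.isNilpotent (Variety.sgn_mem Z hZ) ha fun v hv => ?_
  have hv' : v ∈ Z.corr 0 := by simpa using hv
  have h := hn v hv'
  rw [← mul_assoc]
  exact h

/-- the superdimension of the image of `p` -/
private lemma end_chi (P : Powers S) (G : GenericSection Z S s)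
    (horth : ∀ z y, G.dn y = 0 → P.B (G.up z) y = 0) {p : Module.End F S.H}
    (hp : p ∈ S.corr 0) (hpp : p * p = p) (hps : SA P p) (hv : ∀ y, G.dn y = 0 → p y = y) :
    ∃ χ : ℤ, LinearMap.trace F S.H (p * S.sgn) = χ ∧
      (Module.finrank F (LinearMap.ker G.dn) : ℤ) ≤ |χ| + Module.finrank F Z.H := by
  have hker : ∀ y, S.sgn (vanProj G y) = ((-1 : F) ^ S.dim) • vanProj G y := by
    intro y
    rw [S.sgn_apply (ker_middle G (vanProj_mem G y)), Int.natAbs_natCast]
  have hVV : vanProj G * vanProj G = vanProj G := LinearMap.ext fun y => vanProj_idem G y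
  have hpV : p * vanProj G = vanProj G := LinearMap.ext fun y => hv _ (vanProj_mem G y)
  have hVp : vanProj G * p = vanProj G := by
    ext x
    rw [← sub_eq_zero]
    apply P.duality.nondeg
    intro y
    rw [map_sub, LinearMap.sub_apply, sub_eq_zero, Module.End.mul_apply,
      B_vanProj G horth, hps, hv _ (vanProj_mem G y), ← B_vanProj G horth]
  have hVs : vanProj G * S.sgn = S.sgn * vanProj G := by
    ext y
    rw [Module.End.mul_apply, Module.End.mul_apply, hker]
    obtain ⟨z, hz⟩ := sub_vanProj G y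
    have h1 : y = vanProj G y + G.up z := by rw [hz]; abel
    conv_lhs => rw [h1]
    rw [map_add, up_sgn, map_add, vanProj_up, add_zero, hker, map_smul, vanProj_idem]
  have hran : LinearMap.range (vanProj G) = LinearMap.ker G.dn := by
    ext y
    constructor
    · rintro ⟨z, rfl⟩
      exact vanProj_mem G z
    · intro hy
      exact ⟨y, vanProj_of_ker G hy⟩
  have hqq : (p - vanProj G) * (p - vanProj G) = p - vanProj G := by
    rw [sub_mul, mul_sub, mul_sub, hpp, hpV, hVp, hVV, sub_self, sub_zero]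
  have hqs : (p - vanProj G) * S.sgn = S.sgn * (p - vanProj G) := by
    rw [sub_mul, mul_sub, S.commute_sgn hp, hVs]
  obtain ⟨a, b, hab, hab'⟩ := trace_idem_sgn (p - vanProj G) S.sgn hqq S.sgn_mul_sgn hqs
  have htrV : LinearMap.trace F S.H (vanProj G) =
      (Module.finrank F (LinearMap.range (vanProj G)) : F) :=
    LinearMap.IsProj.trace ((LinearMap.isProj_range_iff_isIdempotentElem _).mpr hVV)
  have h1 : LinearMap.trace F S.H (vanProj G * S.sgn) =
      (-1 : F) ^ S.dim * (Module.finrank F (LinearMap.ker G.dn) : F) := by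
    have h2 : vanProj G * S.sgn = ((-1 : F) ^ S.dim) • vanProj G := by
      rw [hVs]
      exact LinearMap.ext fun y => hker y
    rw [h2, map_smul, htrV, hran, smul_eq_mul]
  have hrk : Module.finrank F (LinearMap.range (p - vanProj G)) ≤ Module.finrank F Z.H := by
    refine le_trans (Submodule.finrank_mono (t := LinearMap.range (p ∘ₗ G.up)) ?_)
      (LinearMap.finrank_range_le _)
    rintro _ ⟨y, rfl⟩
    obtain ⟨z, hz⟩ := sub_vanProj G y
    refine ⟨z, ?_⟩
    rw [LinearMap.comp_apply, hz, map_sub, hv _ (vanProj_mem G y), LinearMap.sub_apply]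
  refine ⟨(-1) ^ S.dim * (Module.finrank F (LinearMap.ker G.dn) : ℤ) + ((a : ℤ) - b), ?_, ?_⟩
  · have h2 : p * S.sgn = vanProj G * S.sgn + (p - vanProj G) * S.sgn := by
      rw [← add_mul, add_sub_cancel]
    rw [h2, map_add, h1, hab']
    push_cast
    ring
  · rcases Nat.even_or_odd S.dim with h | h
    · rw [h.neg_one_pow, one_mul]
      have := le_abs_self ((Module.finrank F (LinearMap.ker G.dn) : ℤ) + ((a : ℤ) - b))
      omega
    · rw [h.neg_one_pow]
      have := neg_le_abs (-1 * (Module.finrank F (LinearMap.ker G.dn) : ℤ) + ((a : ℤ) - b))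
      omega

/-- **The traces on the even cohomology.** -/
theorem numTrace_power (P : Powers S) (G : GenericSection Z S s) (i : ℕ)
    (I : PowerIncidence P G (2 * i)) (hZ : Z.CPlus)
    (hL : Module.finrank F Z.H + 2 * i < Module.finrank F (LinearMap.ker G.dn)) :
    NumTrace P i := by
  have hNZ := nilpotence_of_cplus_var hZ
  have hNS := nilpotence_section G (by omega) hNZ
  obtain ⟨e, heI, hee, heS, heN⟩ := exists_idem G P I.orth hNS
  obtain ⟨D, hε, hB, hDe, hDf, hA⟩ := exists_D P
  set p : Module.End F S.H := 1 - e with hpdef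
  have hp0 : p ∈ S.corr 0 := (S.corr 0).sub_mem S.corr_one heI.1
  have hpp' : p * p = p := by
    rw [hpdef, sub_mul, mul_sub, mul_sub, hee, mul_one, one_mul, mul_one, sub_self, sub_zero]
  have hpp : ∀ x, p (p x) = p x := fun x => congrArg (fun f => f x) hpp'
  have hpS : SA P p := SA.sub P (SA.one P) heS
  have hpv : ∀ y, G.dn y = 0 → p y = y := by
    intro y hy
    rw [hpdef, LinearMap.sub_apply, heI.2 y hy, sub_zero, Module.End.one_apply]
  have hp : SymEven D p := by
    refine ⟨fun x y => ?_, fun x => ?_⟩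
    · rw [hB]; exact hpS x y
    · rw [hε]
      have := congrArg (fun f => f x) (S.commute_sgn hp0)
      exact this
  have hslot : ∀ g : Module.End F S.H, g ∈ S.corr 0 → SlotAlg P.cyc g := by
    intro g hg n j t ht hj
    obtain ⟨t', ht', h⟩ := P.slot ht hg hj
    refine P.cycles.congr _ _ _ ht' fun l hl => ?_
    obtain ⟨l₁, x, l₂, rfl, h1, h2⟩ : ∃ l₁ x l₂, l = l₁ ++ x :: l₂ ∧ l₁.length = j ∧
        j + 1 + l₂.length = n := by
      refine ⟨l.take j, l[j], l.drop (j + 1), ?_, by rw [List.length_take]; omega, ?_⟩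
      · rw [List.cons_getElem_drop_succ, List.take_append_drop]
      · rw [List.length_drop]; omega
    rw [slt_apply _ _ _ _ _ h1, h l₁ x l₂ h1 h2]
  have hps := hslot p hp0
  have hpe : SlotAlg P.cyc (D.ε ∘ₗ (1 - p)) := by
    obtain ⟨γ, hγ, hγ'⟩ := heI.exists_γ
    have hsZ : Z.sgn * γ ∈ Z.corr (-(s : ℤ)) := Z.corr_mul' (by ring) (Variety.sgn_mem Z hZ) hγ
    have h1 := G.restrict (Z.sgn * γ) hsZ
    have h2 : D.ε ∘ₗ (1 - p) = G.up ∘ₗ (Z.sgn * γ) ∘ₗ G.dn := by
      ext y
      rw [LinearMap.comp_apply, hpdef, sub_sub_cancel, hε, hγ', up_sgn]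
      rfl
    rw [h2]
    exact hslot _ h1
  obtain ⟨χ, hχ, hχ'⟩ := end_chi P G I.orth hp0 hpp' hpS hpv
  have hχ2 : ∑ i, D.B (p (D.e i)) (D.f i) = χ := by
    rw [← hχ, P.str_eq hp0, hB, hDe, hDf]
  have hmp : ∀ n t, P.cyc n t → P.cyc n (mp p t) := fun n t ht => mp_alg hA hps ht
  have hrec : ∀ n, n + 2 ≤ 2 * i → ∀ t, P.cyc (n + 2) t →
      ∃ (a : Fin (n + 1) → List S.H → F) (r : Fin (n + 2) → List S.H → F),
        (∀ l, P.cyc n (a l)) ∧
        (∀ j, P.cyc (n + 2) (r j) ∧ Nt D P.cyc (n + 2) (mp p (r j)) ∧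
          P.cyc (n + 2) (slt j D.ε (r j)) ∧ Nt D P.cyc (n + 2) (mp p (slt j D.ε (r j)))) ∧
        ∀ L : List S.H, L.length = n + 2 →
          t L = ∑ l, Iop D LinearMap.id (a l) l L + ∑ j, r j L := by
    intro n hn t ht
    obtain ⟨a, d, r, z, h1, h2, h3⟩ := I.incidence n hn t ht
    refine ⟨a, r, fun l => (h1 l).1, fun j => ?_, fun L hL => ?_⟩
    · obtain ⟨hr, hz, hrz⟩ := h2 j
      have fr := P.cycles.form _ _ hr
      have hk : Kills G (n + 2) j (r j) := by
        intro l₁ l₂ y hl hl' hy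
        rw [hrz l₁ l₂ y hl (by omega), hy]
        have h4 := hrz l₁ l₂ 0 hl (by omega)
        rw [map_zero] at h4
        rw [← h4]
        have h5 := fr.smul l₁ l₂ 0 0 hl'
        rw [zero_smul, zero_mul] at h5
        exact h5
      obtain ⟨r', hr', hr''⟩ := I.restrict (n + 2) j _ j.2
        (I.comp (n + 2) j _ Z.sgn hz (Variety.sgn_mem Z hZ))
      have hsl : ∀ L : List S.H, L.length = n + 2 → slt j D.ε (r j) L = r' L := by
        intro L hL
        obtain ⟨l₁, x, l₂, rfl, hl, hl'⟩ := core_split hL j.2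
        rw [slt_apply _ _ _ _ _ hl, hr'' l₁ l₂ x hl (by omega), hrz l₁ l₂ _ hl (by omega), hε,
          dn_sgn]
      have hc : P.cyc (n + 2) (slt j D.ε (r j)) := P.cycles.congr _ _ _ hr' hsl
      have hk' : Kills G (n + 2) j (slt j D.ε (r j)) := by
        intro l₁ l₂ y hl hl' hy
        rw [slt_apply _ _ _ _ _ hl]
        exact hk l₁ l₂ _ hl hl' (by rw [hε, dn_sgn, hy, map_zero])
      exact ⟨hr, kills_Nt D hA hε hDe hDf hp hp0 hpv hpp hmp heN j j.2 _ hr hk, hc,
        kills_Nt D hA hε hDe hDf hp hp0 hpv hpp hmp heN j j.2 _ hc hk'⟩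
    · rw [h3 L hL]
      congr 1
      exact Finset.sum_congr rfl fun l _ => (diag_eq D hε hB l (by omega) _ (h1 l).2).2 L hL
  intro t ht hn
  have hnt : Nt D P.cyc (2 * i) t := by
    intro s hs
    rw [← link_eq_cn D hDe hDf]
    exact hn s hs
  obtain ⟨ρ, hρ, hnest⟩ := nested D i
  have ft := hA.form _ _ ht
  have h0 := core hA hp hpp hps hpe hχ2 (N := 2 * i) (by push_cast; omega) hrec i le_rfl
    (act D ρ t) (act_alg hA ht ρ hρ) (Nt_act hA ft hnt ρ hρ)
  rw [← hnest t ft] at h0
  have h1 : (mat P i t).trace = 0 := by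
    rw [← h0, hDe, hDf]
    rfl
  rw [link_plus P (P.cycles.form _ _ ht), link_diag P ht hn, h1, add_zero, mul_zero]

/-- **Nilpotence and the sign conjecture up to numerical equivalence for the power `S^i` of a
generic complete intersection `S` of large degree.** -/
theorem nilpotence_power (P : Powers S) (G : GenericSection Z S s) (i : ℕ)
    (I : PowerIncidence P G (2 * i)) (hZ : Z.CPlus)
    (hL : Module.finrank F Z.H + 2 * i < Module.finrank F (LinearMap.ker G.dn)) :
    P.Nilpotence i ∧ (RationalTrace P i → NumCPlus P i) := by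
  have h := numTrace_power P G i I hZ hL
  refine ⟨nilpotence_of_numTrace P h, fun hr => numCPlus_of_numTrace P hr ?_ h⟩
  exact fun _ _ ht hs => link_rat P S.cycles.one (str_one_ne_zero G (by omega)) ht hs

end Pool.Agent.NS3
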