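import Pool.Agent.NS3.Defs

/-!
# The operations preserve forms

Transpositions, contractions, operators in one slot or in all slots, insertion of the form `B` in two
slots: all these operations send multilinear even functions to multilinear even functions. The
multilinearity is checked for substitutions which are linear in each slot (`FoSub`), the parity
directly.
-/

namespace Pool.Agent.NS3

open Pool.Agent.Helper89.NN

universe u v w

variable {F : Type u} [Field F] [CharZero F] {U : Type v} [AddCommGroup U] [Module F U]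
  {ι : Type w} [Fintype ι] {D : SS F U ι}

/-- `t` is linear in each slot of the lists of length `n` -/
private def FoML (F : Type u) [Field F] {U : Type v} [AddCommGroup U] [Module F U] (n : ℕ)
    (t : List U → F) : Prop :=
  ∀ l₁ l₂ : List U, l₁.length + l₂.length + 1 = n → ∃ φ : U →ₗ[F] F, ∀ x, t (l₁ ++ x :: l₂) = φ x

/-- the substitution `Φ` is linear in each slot -/
private def FoSub (F : Type u) [Field F] {U : Type v} [AddCommGroup U] [Module F U] (n n' : ℕ)
    (Φ : List U → List U) : Prop :=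
  ∀ l₁ l₂ : List U, l₁.length + l₂.length + 1 = n → ∃ (l₁' l₂' : List U) (g : U →ₗ[F] U),
    l₁'.length + l₂'.length + 1 = n' ∧ ∀ x, Φ (l₁ ++ x :: l₂) = l₁' ++ g x :: l₂'

omit [CharZero F] in
private lemma fo_ml {n : ℕ} {t : List U → F} (h : IsForm D n t) : FoML F n t :=
  fun l₁ l₂ hl => ⟨h.lin l₁ l₂ hl, fun _ => rfl⟩

omit [CharZero F] in
private lemma fo_mk {n : ℕ} {t : List U → F} (h : FoML F n t)
    (he : ∀ l : List U, l.length = n → t (l.map D.ε) = t l) : IsForm D n t := by
  refine ⟨?_, ?_, he⟩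
  · intro l₁ l₂ x y hl
    obtain ⟨φ, hφ⟩ := h l₁ l₂ hl
    rw [hφ, hφ, hφ, map_add]
  · intro l₁ l₂ c x hl
    obtain ⟨φ, hφ⟩ := h l₁ l₂ hl
    rw [hφ, hφ, map_smul, smul_eq_mul]

omit [CharZero F] in
private lemma fo_ml_add {n : ℕ} {t t' : List U → F} (h : FoML F n t) (h' : FoML F n t') :
    FoML F n (fun l => t l + t' l) := by
  intro l₁ l₂ hl
  obtain ⟨φ, hφ⟩ := h l₁ l₂ hl
  obtain ⟨φ', hφ'⟩ := h' l₁ l₂ hl
  exact ⟨φ + φ', fun x => by
    show t _ + t' _ = _
    rw [hφ, hφ']; rfl⟩

omit [CharZero F] in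
private lemma fo_ml_smul {n : ℕ} {t : List U → F} (h : FoML F n t) (c : F) :
    FoML F n (fun l => c * t l) := by
  intro l₁ l₂ hl
  obtain ⟨φ, hφ⟩ := h l₁ l₂ hl
  exact ⟨c • φ, fun x => by
    show c * t _ = _
    rw [hφ]; rfl⟩

omit [CharZero F] in
private lemma fo_ml_sum {n : ℕ} {κ : Type*} (s : Finset κ) {t : κ → List U → F}
    (h : ∀ k ∈ s, FoML F n (t k)) : FoML F n (fun l => ∑ k ∈ s, t k l) := by
  classical
  induction s using Finset.induction_on with
  | empty => exact fun l₁ l₂ _ => ⟨0, fun x => by simp⟩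
  | insert a s ha ih =>
    have h1 := fo_ml_add (h a (Finset.mem_insert_self a s))
      (ih fun k hk => h k (Finset.mem_insert_of_mem hk))
    intro l₁ l₂ hl
    obtain ⟨φ, hφ⟩ := h1 l₁ l₂ hl
    exact ⟨φ, fun x => by
      show ∑ k ∈ insert a s, t k _ = _
      rw [Finset.sum_insert ha]
      exact hφ x⟩

omit [CharZero F] in
private lemma fo_ml_congr {n : ℕ} {t t' : List U → F} (h : FoML F n t)
    (h' : ∀ l, l.length = n → t' l = t l) : FoML F n t' := by
  intro l₁ l₂ hl
  obtain ⟨φ, hφ⟩ := h l₁ l₂ hl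
  exact ⟨φ, fun x => by rw [h' _ (by simp; omega), hφ]⟩

omit [CharZero F] in
private lemma fo_ml_sub {n n' : ℕ} {t : List U → F} (h : FoML F n' t) {Φ : List U → List U}
    (hΦ : FoSub F n n' Φ) : FoML F n (fun l => t (Φ l)) := by
  intro l₁ l₂ hl
  obtain ⟨l₁', l₂', g, hl', hg⟩ := hΦ l₁ l₂ hl
  obtain ⟨φ, hφ⟩ := h l₁' l₂' hl'
  exact ⟨φ.comp g, fun x => by
    show t _ = _
    rw [hg, hφ]; rfl⟩

/-- a list of length `≥ k` is the sum of a list of length `k` and a list -/
private lemma fo_split {l : List U} {k : ℕ} (h : k ≤ l.length) :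
    ∃ a b, l = a ++ b ∧ a.length = k :=
  ⟨l.take k, l.drop k, (List.take_append_drop k l).symm, by simp; omega⟩

private lemma fo_split1 {l : List U} {k : ℕ} (h : k + 1 ≤ l.length) :
    ∃ a y b, l = a ++ y :: b ∧ a.length = k := by
  obtain ⟨a, b, rfl, ha⟩ := fo_split (k := k) (l := l) (by omega)
  match b, h with
  | [], h => simp at h; omega
  | y :: b, _ => exact ⟨a, y, b, rfl, ha⟩

private lemma fo_split2 {l : List U} {k : ℕ} (h : k + 2 ≤ l.length) :
    ∃ a y z b, l = a ++ y :: z :: b ∧ a.length = k := by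
  obtain ⟨a, y, b, rfl, ha⟩ := fo_split1 (k := k) (l := l) (by omega)
  match b, h with
  | [], h => simp at h; omega
  | z :: b, _ => exact ⟨a, y, z, b, rfl, ha⟩

omit [CharZero F] in
/-- insertion of two vectors -/
private lemma fo_sub_ins {n k : ℕ} (hk : k ≤ n) (u v : U) :
    FoSub F n (n + 2) (fun l => l.take k ++ u :: v :: l.drop k) := by
  intro l₁ l₂ hl
  by_cases h : k ≤ l₁.length
  · obtain ⟨a, b, rfl, ha⟩ := fo_split h
    refine ⟨a ++ u :: v :: b, l₂, LinearMap.id, by simp at hl ⊢; omega, fun x => ?_⟩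
    show List.take k ((a ++ b) ++ x :: l₂) ++ u :: v :: List.drop k ((a ++ b) ++ x :: l₂) = _
    rw [List.append_assoc, ← ha, List.take_left, List.drop_left]
    simp
  · obtain ⟨a, b, rfl, ha⟩ := fo_split (l := l₂) (k := k - (l₁.length + 1)) (by omega)
    refine ⟨l₁, a ++ u :: v :: b, LinearMap.id, by simp at hl ⊢; omega, fun x => ?_⟩
    have e : (l₁ ++ x :: a).length = k := by simp; omega
    have e' : l₁ ++ x :: (a ++ b) = (l₁ ++ x :: a) ++ b := by simp
    show List.take k (l₁ ++ x :: (a ++ b)) ++ u :: v :: List.drop k (l₁ ++ x :: (a ++ b)) = _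
    rw [e', ← e, List.take_left, List.drop_left]
    simp

omit [CharZero F] in
private lemma fo_drop {k : ℕ} {a b : List U} (ha : a.length = k) : (a ++ b).drop k = b := by
  rw [← ha, List.drop_left]

omit [CharZero F] in
private lemma fo_take {k : ℕ} {a b : List U} (ha : a.length = k) : (a ++ b).take k = a := by
  rw [← ha, List.take_left]

/-- exchange of two neighbouring slots, with two operators -/
private def foTr (k : ℕ) (g g' : U → U) (l : List U) : List U :=
  match l.drop k with
  | x :: y :: l₂ => l.take k ++ g y :: g' x :: l₂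
  | _ => l

private lemma foTr_eq {k : ℕ} (g g' : U → U) (a b : List U) (x y : U) (ha : a.length = k) :
    foTr k g g' (a ++ x :: y :: b) = a ++ g y :: g' x :: b := by
  unfold foTr
  rw [← ha, List.drop_left, List.take_left]

omit [CharZero F] in
private lemma fo_sub_tr {n k : ℕ} (hk : k + 2 ≤ n) (g g' : U →ₗ[F] U) :
    FoSub F n n (foTr k g g') := by
  intro l₁ l₂ hl
  by_cases h : k + 2 ≤ l₁.length
  · obtain ⟨a, y, z, b, rfl, ha⟩ := fo_split2 h
    refine ⟨a ++ g z :: g' y :: b, l₂, LinearMap.id, by simp at hl ⊢; omega, fun x => ?_⟩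
    rw [List.append_assoc, List.cons_append, List.cons_append, foTr_eq _ _ _ _ _ _ ha]
    simp
  · by_cases h' : k + 1 ≤ l₁.length
    · obtain ⟨a, y, b, rfl, ha⟩ := fo_split1 h'
      have hb : b = [] := by
        apply List.eq_nil_of_length_eq_zero
        simp at h; omega
      subst hb
      refine ⟨a, g' y :: l₂, g, by simp at hl ⊢; omega, fun x => ?_⟩
      rw [List.append_assoc, List.cons_append, List.nil_append, foTr_eq _ _ _ _ _ _ ha]
    · by_cases h'' : k = l₁.length
      · match l₂, hl with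
        | [], hl => simp at hl; omega
        | y :: b, hl =>
          refine ⟨l₁ ++ [g y], b, g', by simp at hl ⊢; omega, fun x => ?_⟩
          rw [foTr_eq _ _ _ _ _ _ h''.symm]
          simp
      · obtain ⟨a, y, z, b, rfl, ha⟩ := fo_split2 (l := l₂) (k := k - (l₁.length + 1)) (by omega)
        refine ⟨l₁, a ++ g z :: g' y :: b, LinearMap.id, by simp at hl ⊢; omega, fun x => ?_⟩
        have e : (l₁ ++ x :: a).length = k := by simp; omega
        have e' : l₁ ++ x :: (a ++ y :: z :: b) = (l₁ ++ x :: a) ++ y :: z :: b := by simp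
        rw [e', foTr_eq _ _ _ _ _ _ e]
        simp

/-- an operator in one slot -/
private def foSl (j : ℕ) (g : U → U) (l : List U) : List U :=
  match l.drop j with
  | x :: l₂ => l.take j ++ g x :: l₂
  | _ => l

private lemma foSl_eq {j : ℕ} (g : U → U) (a b : List U) (x : U) (ha : a.length = j) :
    foSl j g (a ++ x :: b) = a ++ g x :: b := by
  unfold foSl
  rw [← ha, List.drop_left, List.take_left]

omit [CharZero F] in
private lemma fo_sub_sl {n j : ℕ} (hj : j < n) (g : U →ₗ[F] U) : FoSub F n n (foSl j g) := by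
  intro l₁ l₂ hl
  by_cases h : j + 1 ≤ l₁.length
  · obtain ⟨a, y, b, rfl, ha⟩ := fo_split1 h
    refine ⟨a ++ g y :: b, l₂, LinearMap.id, by simp at hl ⊢; omega, fun x => ?_⟩
    rw [List.append_assoc, List.cons_append, foSl_eq _ _ _ _ ha]
    simp
  · by_cases h' : j = l₁.length
    · refine ⟨l₁, l₂, g, hl, fun x => ?_⟩
      rw [foSl_eq _ _ _ _ h'.symm]
    · obtain ⟨a, y, b, rfl, ha⟩ := fo_split1 (l := l₂) (k := j - (l₁.length + 1)) (by omega)
      refine ⟨l₁, a ++ g y :: b, LinearMap.id, by simp at hl ⊢; omega, fun x => ?_⟩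
      have e : (l₁ ++ x :: a).length = j := by simp; omega
      have e' : l₁ ++ x :: (a ++ y :: b) = (l₁ ++ x :: a) ++ y :: b := by simp
      rw [e', foSl_eq _ _ _ _ e]
      simp

theorem isForm_add {n : ℕ} {t t' : List U → F} (h : IsForm D n t) (h' : IsForm D n t') :
    IsForm D n (fun l => t l + t' l) :=
  fo_mk (fo_ml_add (fo_ml h) (fo_ml h')) fun l hl => by
    show t _ + t' _ = t _ + t' _
    rw [h.even l hl, h'.even l hl]

theorem isForm_smul {n : ℕ} {t : List U → F} (h : IsForm D n t) (c : F) :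
    IsForm D n (fun l => c * t l) :=
  fo_mk (fo_ml_smul (fo_ml h) c) fun l hl => by
    show c * t _ = c * t _
    rw [h.even l hl]

theorem isForm_sum {n : ℕ} {κ : Type*} (s : Finset κ) {t : κ → List U → F}
    (h : ∀ k ∈ s, IsForm D n (t k)) : IsForm D n (fun l => ∑ k ∈ s, t k l) :=
  fo_mk (fo_ml_sum s fun k hk => fo_ml (h k hk)) fun l hl =>
    Finset.sum_congr rfl fun k hk => (h k hk).even l hl

theorem isForm_congr {n : ℕ} {t t' : List U → F} (h : IsForm D n t)
    (h' : ∀ l, l.length = n → t' l = t l) : IsForm D n t' :=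
  fo_mk (fo_ml_congr (fo_ml h) h') fun l hl => by
    rw [h' _ (by simpa using hl), h' _ hl, h.even l hl]

omit [CharZero F] in
private lemma fo_sw_eq {k : ℕ} (t : List U → F) (a b : List U) (x y : U) (ha : a.length = k) :
    sw D k t (a ++ x :: y :: b) = 2⁻¹ * (t (a ++ y :: x :: b) + t (a ++ y :: D.ε x :: b) +
      t (a ++ D.ε y :: x :: b) - t (a ++ D.ε y :: D.ε x :: b)) := by
  unfold sw
  rw [← ha, List.drop_left, List.take_left]

theorem isForm_sw {n k : ℕ} {t : List U → F} (h : IsForm D n t) (hk : k + 2 ≤ n) :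
    IsForm D n (sw D k t) := by
  refine fo_mk ?_ ?_
  · have h1 := fun g g' : U →ₗ[F] U => fo_ml_sub (fo_ml h) (fo_sub_tr hk g g')
    have h2 := fo_ml_smul (fo_ml_add (fo_ml_add (fo_ml_add (h1 LinearMap.id LinearMap.id)
      (h1 LinearMap.id D.ε)) (h1 D.ε LinearMap.id)) (fo_ml_smul (h1 D.ε D.ε) (-1))) 2⁻¹
    refine fo_ml_congr h2 fun l hl => ?_
    obtain ⟨a, x, y, b, rfl, ha⟩ := fo_split2 (k := k) (l := l) (by omega)
    show _ = 2⁻¹ * (t (foTr k _ _ _) + t (foTr k _ _ _) + t (foTr k _ _ _) +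
      -1 * t (foTr k _ _ _))
    rw [fo_sw_eq t a b x y ha, foTr_eq _ _ _ _ _ _ ha, foTr_eq _ _ _ _ _ _ ha,
      foTr_eq _ _ _ _ _ _ ha, foTr_eq _ _ _ _ _ _ ha]
    show _ = 2⁻¹ * (t (a ++ y :: x :: b) + t (a ++ y :: D.ε x :: b) +
      t (a ++ D.ε y :: x :: b) + -1 * t (a ++ D.ε y :: D.ε x :: b))
    ring
  · intro l hl
    obtain ⟨a, x, y, b, rfl, ha⟩ := fo_split2 (k := k) (l := l) (by omega)
    have hlen : a.length + b.length + 2 = n := by simp at hl; omega
    rw [List.map_append, List.map_cons, List.map_cons,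
      fo_sw_eq t _ _ _ _ (by simpa using ha), fo_sw_eq t _ _ _ _ ha]
    have e : ∀ u v : U, t (a.map D.ε ++ D.ε u :: D.ε v :: b.map D.ε) = t (a ++ u :: v :: b) := by
      intro u v
      have := h.even (a ++ u :: v :: b) (by simp; omega)
      rwa [List.map_append, List.map_cons, List.map_cons] at this
    rw [e, e, e, e]

theorem isForm_act {n : ℕ} {t : List U → F} (h : IsForm D n t) (ρ : List ℕ) (hρ : Valid n ρ) :
    IsForm D n (act D ρ t) := by
  induction ρ with
  | nil => exact h
  | cons k ρ ih =>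
    exact isForm_sw (ih fun j hj => hρ j (List.mem_cons_of_mem _ hj)) (hρ k List.mem_cons_self)

theorem isForm_ctr {n k : ℕ} {t : List U → F} (h : IsForm D (n + 2) t) (hk : k ≤ n) :
    IsForm D n (ctr D k t) := by
  refine fo_mk ?_ ?_
  · exact fo_ml_sum Finset.univ fun i _ => fo_ml_sub (fo_ml h) (fo_sub_ins hk (D.e i) (D.f i))
  · intro l hl
    obtain ⟨a, b, rfl, ha⟩ := fo_split (k := k) (l := l) (by omega)
    have hlen : a.length + b.length = n := by simp at hl; omega
    unfold ctr
    refine Finset.sum_congr rfl fun i _ => ?_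
    rw [List.map_append, fo_drop (by simpa using ha), fo_take (by simpa using ha), fo_drop ha,
      fo_take ha]
    have h1 := h.even (a ++ D.ε (D.e i) :: D.ε (D.f i) :: b) (by simp; omega)
    rw [List.map_append, List.map_cons, List.map_cons, D.εε, D.εε] at h1
    rw [h1, D.ε_e, D.ε_f, h.smul a _ _ _ (by simp; omega)]
    have h2 := h.smul (a ++ [D.e i]) b (sp F (D.p i)) (D.f i) (by simp; omega)
    simp only [List.append_assoc, List.cons_append, List.nil_append] at h2
    rw [h2, ← mul_assoc, sp_mul_sp, one_mul]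

theorem isForm_ctε {n : ℕ} {t : List U → F} (h : IsForm D (n + 2) t) :
    IsForm D n (ctε D t) := by
  refine fo_mk ?_ ?_
  · refine fo_ml_sum Finset.univ fun i _ => ?_
    have h1 := fo_ml_sub (fo_ml h) (fo_sub_ins (n := n) (k := 0) (by omega) (D.ε (D.e i)) (D.f i))
    exact fo_ml_congr h1 fun l _ => rfl
  · intro l hl
    unfold ctε
    refine Finset.sum_congr rfl fun i _ => ?_
    have h1 := h.even (D.e i :: D.ε (D.f i) :: l) (by simp; omega)
    rw [List.map_cons, List.map_cons, D.εε] at h1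
    rw [h1, D.ε_e, D.ε_f]
    have h2 := h.smul [D.e i] l (sp F (D.p i)) (D.f i) (by simp; omega)
    have h3 := h.smul [] (D.f i :: l) (sp F (D.p i)) (D.e i) (by simp; omega)
    simp only [List.cons_append, List.nil_append] at h2 h3
    rw [h2, h3]

theorem isForm_slt {n j : ℕ} {t : List U → F} (h : IsForm D n t) (hj : j < n) {g : U →ₗ[F] U}
    (hg : ∀ x, g (D.ε x) = D.ε (g x)) : IsForm D n (slt j g t) := by
  refine fo_mk ?_ ?_
  · refine fo_ml_congr (fo_ml_sub (fo_ml h) (fo_sub_sl hj g)) fun l hl => ?_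
    obtain ⟨a, x, b, rfl, ha⟩ := fo_split1 (k := j) (l := l) (by omega)
    rw [slt_apply _ _ _ _ _ ha]
    show _ = t (foSl j g _)
    rw [foSl_eq _ _ _ _ ha]
  · intro l hl
    obtain ⟨a, x, b, rfl, ha⟩ := fo_split1 (k := j) (l := l) (by omega)
    have hlen : a.length + b.length + 1 = n := by simp at hl; omega
    rw [List.map_append, List.map_cons, slt_apply _ _ _ _ _ (by simpa using ha),
      slt_apply _ _ _ _ _ ha, hg]
    have := h.even (a ++ g x :: b) (by simp; omega)
    rwa [List.map_append, List.map_cons] at this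

theorem isForm_mp {n : ℕ} {t : List U → F} (h : IsForm D n t) {g : U →ₗ[F] U}
    (hg : ∀ x, g (D.ε x) = D.ε (g x)) : IsForm D n (mp g t) := by
  refine fo_mk ?_ ?_
  · have h1 : FoSub F n n (fun l : List U => l.map g) := by
      intro l₁ l₂ hl
      exact ⟨l₁.map g, l₂.map g, g, by simpa using hl, fun x => by simp⟩
    exact fo_ml_sub (fo_ml h) h1
  · intro l hl
    show t ((l.map D.ε).map g) = t (l.map g)
    have h1 : (l.map D.ε).map g = (l.map g).map D.ε := by
      rw [List.map_map, List.map_map]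
      exact List.map_congr_left fun x _ => hg x
    rw [h1]
    exact h.even _ (by simpa using hl)

omit [CharZero F] in
private lemma fo_iop {n : ℕ} {s : List U → F} (h : IsForm D n s) {p : U →ₗ[F] U}
    (hp : SymEven D p) : IsForm D (n + 2) (Iop D p s 0) := by
  have key : ∀ (x y : U) (l : List U), Iop D p s 0 (x :: y :: l) = s l * D.B (p x) y := by
    intro x y l
    show s (List.take 0 (x :: y :: l) ++ List.drop (0 + 2) (x :: y :: l)) * _ = _
    simp
  refine fo_mk ?_ ?_
  · intro l₁ l₂ hl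
    match l₁, l₂, hl with
    | [], [], hl => simp at hl
    | [], y :: l₂, hl =>
      refine ⟨s l₂ • (D.B.flip y).comp p, fun x => ?_⟩
      rw [List.nil_append, key]; rfl
    | [x], l₂, hl =>
      refine ⟨s l₂ • D.B (p x), fun y => ?_⟩
      rw [List.cons_append, List.nil_append, key]; rfl
    | x :: y :: l₁, l₂, hl =>
      refine ⟨D.B (p x) y • h.lin l₁ l₂ (by simp at hl; omega), fun z => ?_⟩
      rw [List.cons_append, List.cons_append, key, mul_comm]; rfl
  · intro l hl
    match l, hl with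
    | [], hl => simp at hl
    | [x], hl => simp at hl
    | x :: y :: l, hl =>
      rw [List.map_cons, List.map_cons, key, key, hp.even, D.B_ε, h.even l (by simp at hl; omega)]

theorem isForm_Iop {n l : ℕ} {s : List U → F} (h : IsForm D n s) {p : U →ₗ[F] U}
    (hp : SymEven D p) (hl : l ≤ n) : IsForm D (n + 2) (Iop D p s l) := by
  induction l with
  | zero => exact fo_iop h hp
  | succ l ih => exact isForm_sw (ih (by omega)) (by omega)

theorem isForm_Cop {n l : ℕ} {t : List U → F} (h : IsForm D (n + 2) t) (hl : l ≤ n) :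
    IsForm D n (Cop D l t) := by
  induction l generalizing t with
  | zero => exact isForm_ctr h hl
  | succ l ih => exact ih (isForm_sw h (by omega)) (by omega)

end Pool.Agent.NS3
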