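import Pool.Agent.Helper90.NS.CI

/-!
# The symmetric idempotent attached to a generic complete intersection

The same as in `Pool.Agent.Helper89.NN.Unit`, for complete intersections of any codimension.
-/

namespace Pool.Agent.NS3

open Pool.Agent.Helper29.CPB TT
open Pool.Agent.Helper89.NN hiding vanProj vanProj_mem vanProj_of_ker vanProj_iff vanProj_zero_iff
  vanProj_up vanProj_idem sub_vanProj up_homog dn_homog ker_middle dn_up_apply B_vanProj

universe u v

variable {F : Type u} [Field F] [CharZero F] {Z S : Variety.{u, v} F} {s : ℕ}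

section unit

variable (G : GenericSection Z S s) (P : Powers S)

/-- the ideal of the correspondences which kill the vanishing cohomology -/
def IdC (g : Module.End F S.H) : Prop := g ∈ S.corr 0 ∧ ∀ y, G.dn y = 0 → g y = 0

lemma IdC.mul_left {g v : Module.End F S.H} (h : IdC G g) (hv : v ∈ S.corr 0) : IdC G (v * g) :=
  ⟨S.corr_mul' (by ring) hv h.1, fun y hy => by
    rw [Module.End.mul_apply, h.2 y hy, map_zero]⟩

lemma scalar_ker {v : Module.End F S.H} (hv : v ∈ S.corr 0) : ∃ γ ∈ Z.corr (-(s : ℤ)), ∃ c : ℚ,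
    (∀ y, v y = G.up (γ (G.dn y)) + (c : F) • y) ∧ (∀ y, G.dn y = 0 → v y = (c : F) • y) := by
  obtain ⟨γ, hγ, c, hc⟩ := G.generic v hv
  have h : ∀ y, v y = G.up (γ (G.dn y)) + (c : F) • y := fun y => by rw [hc]; rfl
  refine ⟨γ, hγ, c, h, ?_⟩
  intro y hy
  rw [h, hy, map_zero, map_zero, zero_add]

lemma IdC.mul_right {g v : Module.End F S.H} (h : IdC G g) (hv : v ∈ S.corr 0) : IdC G (g * v) := by
  obtain ⟨γ, -, c, -, hc⟩ := scalar_ker G hv
  refine ⟨S.corr_mul' (by ring) h.1 hv, fun y hy => ?_⟩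
  rw [Module.End.mul_apply, hc y hy, map_smul, h.2 y hy, smul_zero]

lemma IdC.add {g v : Module.End F S.H} (h : IdC G g) (hv : IdC G v) : IdC G (g + v) :=
  ⟨(S.corr 0).add_mem h.1 hv.1, fun y hy => by
    rw [LinearMap.add_apply, h.2 y hy, hv.2 y hy, add_zero]⟩

lemma IdC.smul {g : Module.End F S.H} (h : IdC G g) (q : ℚ) : IdC G ((q : F) • g) :=
  ⟨S.corr_smul q 0 g h.1, fun y hy => by rw [LinearMap.smul_apply, h.2 y hy, smul_zero]⟩

lemma IdC.zero : IdC G (0 : Module.End F S.H) := ⟨(S.corr 0).zero_mem, fun _ _ => rfl⟩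

/-- the elements of the ideal come from `Z` -/
lemma IdC.exists_γ {g : Module.End F S.H} (h : IdC G g) :
    ∃ γ ∈ Z.corr (-(s : ℤ)), ∀ y, g y = G.up (γ (G.dn y)) := by
  obtain ⟨γ, hγ, c, hc, hc'⟩ := scalar_ker G h.1
  obtain ⟨e, he0, -, hde⟩ := G.weak.vanishing
  have h1 := hc' e hde
  rw [h.2 e hde] at h1
  have h2 : (c : F) = 0 := (smul_eq_zero.mp h1.symm).resolve_right he0
  refine ⟨γ, hγ, fun y => ?_⟩
  rw [hc, h2, zero_smul, add_zero]

lemma IdC.transp (horth : ∀ z y, G.dn y = 0 → P.B (G.up z) y = 0) {g g' : Module.End F S.H}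
    (h : IdC G g) (hg' : g' ∈ S.corr 0) (hgg : ∀ x y, P.B (g' x) y = P.B x (g y)) : IdC G g' := by
  refine ⟨hg', fun y hy => ?_⟩
  apply P.duality.nondeg
  intro x
  obtain ⟨γ, -, hγ⟩ := h.exists_γ
  rw [hgg, hγ]
  rw [dual_symm P.duality]
  exact horth _ _ (by rw [Pool.Agent.Helper90.NS.CI.dn_sgn, hy, map_zero])

/-- The symmetric idempotent. -/
theorem exists_idem (horth : ∀ z y, G.dn y = 0 → P.B (G.up z) y = 0) (hN : Nilpotence S) :
    ∃ e, IdC G e ∧ e * e = e ∧ SA P e ∧ ∀ θ, IdC G θ → NT S (θ * (1 - e)) := by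
  obtain ⟨w, hw, hw2⟩ := exists_unit S {g | IdC G g} (fun y hy => hy.1) (IdC.zero G)
    (fun x hx y hy => IdC.add G hx hy) (fun q y hy => IdC.smul G hy q)
    (fun x hx y hy => IdC.mul_left G hy hx.1)
  have hw : IdC G w := hw
  have hone : ∀ {g : Module.End F S.H}, g ∈ S.corr 0 → 1 - g ∈ S.corr 0 :=
    fun hg => (S.corr 0).sub_mem S.corr_one hg
  have hunit : ∀ θ, IdC G θ → NT S (θ * (1 - w)) := by
    intro θ hθ v hv
    have := hw2 (v * θ) (IdC.mul_left G hθ hv)
    rwa [mul_assoc v θ] at this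
  obtain ⟨w', hw', h1, h2⟩ := exists_transp P hw.1
  have hwI' : IdC G w' := IdC.transp G P horth hw hw' h1
  -- `w - w'` is numerically trivial
  have hww' : w' * w ∈ S.corr 0 := S.corr_mul' (by ring) hw' hw.1
  have n1 : NT S (w' - w' * w) := by
    have := hunit w' hwI'
    rwa [mul_sub, mul_one] at this
  have n2 : NT S (w - w' * w) := by
    refine NT.transp P ((S.corr 0).sub_mem hw' hww') n1 ?_
    intro x y
    rw [LinearMap.sub_apply, map_sub, LinearMap.sub_apply, LinearMap.sub_apply, map_sub,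
      Module.End.mul_apply, h2, h1, h2, Module.End.mul_apply]
  have n3 : NT S (w - w') := by
    have := n2.sub n1
    rwa [sub_sub_sub_cancel_right] at this
  -- the symmetric representative
  set x : Module.End F S.H := ((1 / 2 : ℚ) : F) • (w + w') with hx
  have hhalf : ((1 / 2 : ℚ) : F) + ((1 / 2 : ℚ) : F) = 1 := by
    push_cast; ring
  have hxI : IdC G x := IdC.smul G (IdC.add G hw hwI') _
  have hxS : SA P x := by
    intro a b
    rw [hx, LinearMap.smul_apply, map_smul, LinearMap.smul_apply, LinearMap.smul_apply, map_smul,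
      LinearMap.add_apply, map_add, LinearMap.add_apply, h1, h2, LinearMap.add_apply, map_add,
      add_comm]
  have n4 : NT S (w - x) := by
    have h3 : w - x = ((1 / 2 : ℚ) : F) • (w - w') := by
      rw [hx, smul_add, smul_sub]
      have : w = ((1 / 2 : ℚ) : F) • w + ((1 / 2 : ℚ) : F) • w := by
        rw [← add_smul, hhalf, one_smul]
      nth_rewrite 1 [this]
      abel
    rw [h3]
    exact n3.smul _
  have hunit' : ∀ θ, IdC G θ → NT S (θ * (1 - x)) := by
    intro θ hθ
    have h3 : θ * (1 - x) = θ * (1 - w) + θ * (w - x) := by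
      rw [← mul_add]; congr 1; abel
    rw [h3]
    exact (hunit θ hθ).add (n4.mul_left hθ.1)
  obtain ⟨n, hn⟩ : IsNilpotent (x - x ^ 2) := by
    have h3 : x - x ^ 2 = x * (1 - x) := by rw [mul_sub, mul_one, pow_two]
    rw [h3]
    exact (hunit' x hxI).nilpotent (S.corr_mul' (by ring) hxI.1 (hone hxI.1)) hN
  have hn' : (x - x ^ 2) ^ (n + 1) = 0 := by rw [pow_succ, hn, zero_mul]
  set N := n + 1 with hN'
  have hidem := isIdempotentElem_one_sub_one_sub_pow_pow x N hn'
  have hxN : IdC G (x ^ N) := by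
    rw [hN', pow_succ]
    exact IdC.mul_left G hxI (S.corr_pow_zero hxI.1 n)
  have hpow : ∀ y, IdC G y → ∀ m : ℕ, IdC G (1 - (1 - y) ^ m) := by
    intro y hy m
    induction m with
    | zero => rw [pow_zero, sub_self]; exact IdC.zero G
    | succ m ih =>
      have h3 : 1 - (1 - y) ^ (m + 1) = (1 - (1 - y) ^ m) + (1 - y) ^ m * y := by
        rw [pow_succ, mul_sub, mul_one]; abel
      rw [h3]
      exact IdC.add G ih (IdC.mul_left G hy (S.corr_pow_zero (hone hy.1) m))
  refine ⟨1 - (1 - x ^ N) ^ N, hpow _ hxN N, hidem, ?_, ?_⟩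
  · exact SA.sub P (SA.one P) (SA.pow P (SA.sub P (SA.one P) (SA.pow P hxS N)) N)
  · intro θ hθ
    rw [sub_sub_cancel]
    have h3 : NT S (θ * (1 - x ^ N)) := by
      have h4 : θ * (1 - x ^ N) = θ * (1 - x) * ∑ i ∈ Finset.range N, x ^ i := by
        rw [mul_assoc, mul_neg_geom_sum]
      rw [h4]
      exact (hunit' θ hθ).mul_right (S.corr_sum _ _ fun i _ => S.corr_pow_zero hxI.1 i)
    rw [hN', pow_succ', ← mul_assoc]
    exact h3.mul_right (S.corr_pow_zero (hone hxN.1) n)

end unit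

section proj

variable (G : GenericSection Z S s) {P : Powers S}

open Pool.Agent.Helper90.NS.CI

lemma up_sgn (z : Z.H) : S.sgn (G.up z) = G.up (Z.sgn z) := by
  rw [← sum_π_apply Z z]
  simp only [map_sum]
  refine Finset.sum_congr rfl fun i _ => ?_
  have h := Z.π_apply_idem i z
  rw [S.sgn_apply (up_homog G h), Z.sgn_apply h, map_smul]

lemma B_vanProj (horth : ∀ z y, G.dn y = 0 → P.B (G.up z) y = 0) (x y : S.H) :
    P.B (vanProj G x) y = P.B x (vanProj G y) := by
  obtain ⟨z, hz⟩ := sub_vanProj G x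
  obtain ⟨w, hw⟩ := sub_vanProj G y
  have h1 : P.B (vanProj G x) (G.up w) = 0 := by
    rw [dual_symm P.duality]
    exact horth _ _ (by rw [dn_sgn, vanProj_mem, map_zero])
  have h2 : P.B (G.up z) (vanProj G y) = 0 := horth _ _ (vanProj_mem G y)
  rw [hw, map_sub, sub_eq_zero] at h1
  rw [hz, map_sub, LinearMap.sub_apply, sub_eq_zero] at h2
  rw [h1, h2]

end proj

end Pool.Agent.NS3
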