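import Pool.Agent.NS3.Form

/-!
# Numerically trivial forms

`Nt D alg n t` means `cn D n t s [] [] = 0` for all algebraic `s` with `n` slots, where `cn` contracts
the last slot of `t` with the first slot of `s`, and so on (slot `j` of `t` with slot `n - 1 - j` of
`s`). A transposition of two slots of `t` is the transposition of the corresponding slots of `s`
(`Nt_sw`), the contraction of two slots of `t` is the insertion of the form `B` in `s` (`Nt_ctr`), a
symmetric operator in a slot of `t` is the operator in the corresponding slot of `s` (`Nt_slt`); all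
these operations preserve algebraic forms.
-/

namespace Pool.Agent.NS3

open Pool.Agent.Helper89.NN

universe u v w

variable {F : Type u} [Field F] [CharZero F] {U : Type v} [AddCommGroup U] [Module F U]
  {ι : Type w} [Fintype ι] {D : SS F U ι} {alg : ℕ → (List U → F) → Prop}

omit [CharZero F] in
private lemma Num_lift {P Q P' Q' : List U → F} (m m' k a : ℕ)
    (h : ∀ l₁ l₂ : List U, l₁.length = a + k → l₂.length = a + k →
      cn D m P Q l₁ l₂ = cn D m' P' Q' l₁ l₂) (l₁ l₂ : List U) (h₁ : l₁.length = a)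
    (h₂ : l₂.length = a) : cn D (m + k) P Q l₁ l₂ = cn D (m' + k) P' Q' l₁ l₂ := by
  induction k generalizing a l₁ l₂ with
  | zero => exact h l₁ l₂ (by omega) (by omega)
  | succ k ih =>
    change ∑ i, _ = ∑ i, _
    refine Finset.sum_congr rfl fun i _ => ?_
    refine ih (a + 1) (fun l₁ l₂ h3 h4 => h l₁ l₂ (by omega) (by omega)) _ _ ?_ ?_
    · rw [List.length_append, h₁, List.length_singleton]
    · rw [List.length_cons, h₂]

omit [CharZero F] in
private lemma Num_lift0 {P Q P' Q' : List U → F} {m m' k n n' : ℕ} (hn : m + k = n)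
    (hn' : m' + k = n')
    (h : ∀ l₁ l₂ : List U, l₁.length = k → l₂.length = k →
      cn D m P Q l₁ l₂ = cn D m' P' Q' l₁ l₂) : cn D n P Q [] [] = cn D n' P' Q' [] [] := by
  subst hn hn'
  exact Num_lift m m' k 0 (fun l₁ l₂ h3 h4 => h l₁ l₂ (by omega) (by omega)) [] [] rfl rfl

omit [CharZero F] in
private lemma Num_right (m : ℕ) (P Q : List U → F) (l₁ l₂ l₃ : List U) :
    cn D m P Q l₁ (l₂ ++ l₃) = cn D m P (fun l => Q (l ++ l₃)) l₁ l₂ := by
  induction m generalizing l₁ l₂ with
  | zero => rfl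
  | succ m ih =>
    change ∑ i, _ = ∑ i, _
    refine Finset.sum_congr rfl fun i _ => ?_
    rw [← ih, List.cons_append]

omit [CharZero F] in
private lemma Num_norm (m : ℕ) (P Q : List U → F) (l₁ l₂ : List U) :
    cn D m P Q l₁ l₂ = cn D m (fun l => P (l₁ ++ l)) (fun l => Q (l ++ l₂)) [] [] := by
  have h := cn_append (D := D) m P Q l₁ [] l₂
  rw [List.append_nil] at h
  rw [h]
  exact Num_right m _ Q [] [] l₂

omit [CharZero F] in
private lemma Num_sum (m : ℕ) {κ : Type*} (s : Finset κ) (P : κ → List U → F) (Q : List U → F)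
    (l₁ l₂ : List U) :
    cn D m (fun l => ∑ k ∈ s, P k l) Q l₁ l₂ = ∑ k ∈ s, cn D m (P k) Q l₁ l₂ := by
  classical
  induction s using Finset.induction_on with
  | empty =>
    rw [Finset.sum_empty]
    exact cn_zero_left m Q l₁ l₂
  | insert a s ha ih =>
    rw [Finset.sum_insert ha, ← ih, ← cn_add_left]
    simp only [Finset.sum_insert ha]

theorem Nt_congr {n : ℕ} {t t' : List U → F} (h : Nt D alg n t)
    (h' : ∀ l, l.length = n → t' l = t l) : Nt D alg n t' := by
  intro s hs
  rw [cn_congr [] [] (n₁ := n) (n₂ := n) (P' := t) (Q' := s) (by simp) (by simp) h'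
    (fun l _ => rfl)]
  exact h s hs

theorem Nt_add {n : ℕ} {t t' : List U → F} (h : Nt D alg n t) (h' : Nt D alg n t') :
    Nt D alg n (fun l => t l + t' l) := by
  intro s hs
  rw [cn_add_left, h s hs, h' s hs, add_zero]

theorem Nt_smul {n : ℕ} {t : List U → F} (h : Nt D alg n t) (c : F) :
    Nt D alg n (fun l => c * t l) := by
  intro s hs
  rw [cn_smul_left, h s hs, mul_zero]

theorem Nt_sum {n : ℕ} {κ : Type*} (s : Finset κ) {t : κ → List U → F}
    (h : ∀ k ∈ s, Nt D alg n (t k)) : Nt D alg n (fun l => ∑ k ∈ s, t k l) := by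
  intro r hr
  rw [Num_sum]
  exact Finset.sum_eq_zero fun k hk => h k hk r hr

theorem Nt_sw (hA : AlgForms D alg) {n k : ℕ} {t : List U → F} (h : IsForm D n t)
    (hn : Nt D alg n t) (hk : k + 2 ≤ n) : Nt D alg n (sw D k t) := by
  intro s hs
  have hs' := hA.form n s hs
  obtain ⟨m, rfl⟩ : ∃ m, n = m + 2 + k := ⟨n - 2 - k, by omega⟩
  have key : cn D (m + 2 + k) (sw D k t) s [] [] = cn D (m + 2 + k) t (sw D m s) [] [] := by
    refine Num_lift0 (m := m + 2) (m' := m + 2) (k := k) rfl rfl fun l₁ l₂ h₁ h₂ => ?_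
    have e1 : cn D (m + 2) (sw D k t) s l₁ l₂ = ∑ i, ∑ j, sg F (D.p i) (D.p j) *
        cn D m t s (l₁ ++ [D.e j] ++ [D.e i]) (D.f j :: D.f i :: l₂) := by
      change ∑ i, ∑ j, cn D m (sw D k t) s (l₁ ++ [D.e i] ++ [D.e j]) (D.f j :: D.f i :: l₂) = _
      refine Finset.sum_congr rfl fun i _ => Finset.sum_congr rfl fun j _ => ?_
      rw [Num_norm m (sw D k t), Num_norm m t, ← cn_smul_left]
      refine cn_congr [] [] (n₁ := m) (n₂ := m) (by simp) (by simp) (fun l hl => ?_)
        fun l _ => rfl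
      have := sw_apply h l₁ l (D.e i) (D.e j) h₁ (by omega) (D.par_e i) (D.par_e j)
      simpa using this
    have e2 : cn D (m + 2) t (sw D m s) l₁ l₂ = ∑ j, ∑ i, sg F (D.p i) (D.p j) *
        cn D m t s (l₁ ++ [D.e j] ++ [D.e i]) (D.f j :: D.f i :: l₂) := by
      change ∑ j, ∑ i, cn D m t (sw D m s) (l₁ ++ [D.e j] ++ [D.e i]) (D.f i :: D.f j :: l₂) = _
      refine Finset.sum_congr rfl fun j _ => Finset.sum_congr rfl fun i _ => ?_
      rw [Num_norm m t (sw D m s), Num_norm m t s, ← cn_smul_right]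
      refine cn_congr [] [] (n₁ := m) (n₂ := m) (by simp) (by simp) (fun l _ => rfl)
        fun l hl => ?_
      exact sw_apply hs' l l₂ (D.f i) (D.f j) hl (by omega) (D.par_f i) (D.par_f j)
    rw [e1, e2, Finset.sum_comm]
  rw [key]
  exact hn _ (hA.swap _ _ _ hs (by omega))

theorem Nt_act (hA : AlgForms D alg) {n : ℕ} {t : List U → F} (h : IsForm D n t)
    (hn : Nt D alg n t) (ρ : List ℕ) (hρ : Valid n ρ) : Nt D alg n (act D ρ t) := by
  induction ρ with
  | nil => exact hn
  | cons k ρ ih =>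
    have h1 : Valid n ρ := fun j hj => hρ j (List.mem_cons_of_mem _ hj)
    exact Nt_sw hA (isForm_act h ρ h1) (ih h1) (hρ k (by simp))

theorem Nt_ctr (hA : AlgForms D alg) {n k : ℕ} {t : List U → F} (h : IsForm D (n + 2) t)
    (hn : Nt D alg (n + 2) t) (hk : k ≤ n) : Nt D alg n (ctr D k t) := by
  intro s hs
  obtain ⟨m, rfl⟩ : ∃ m, n = m + k := ⟨n - k, by omega⟩
  have key : cn D (m + k) (ctr D k t) s [] [] =
      cn D (m + k + 2) t (ins m 2 s (frm D)) [] [] := by
    refine Num_lift0 (m := m) (m' := m + 2) (k := k) rfl (by omega) fun l₁ l₂ h₁ h₂ => ?_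
    have e1 : cn D m (ctr D k t) s l₁ l₂ = ∑ j, cn D m t s (l₁ ++ [D.e j] ++ [D.f j]) l₂ := by
      rw [Num_norm]
      have h3 : ∀ j, cn D m t s (l₁ ++ [D.e j] ++ [D.f j]) l₂ =
          cn D m (fun l => t (l₁ ++ [D.e j] ++ [D.f j] ++ l)) (fun l => s (l ++ l₂)) [] [] :=
        fun j => Num_norm _ _ _ _ _
      rw [Finset.sum_congr rfl fun j _ => h3 j, ← Num_sum]
      refine cn_congr [] [] (n₁ := m) (n₂ := m) (by simp) (by simp) (fun l hl => ?_)
        fun l _ => rfl
      change ctr D k t (l₁ ++ l) = _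
      unfold ctr
      rw [← h₁, List.take_left, List.drop_left]
      simp
    have e2 : cn D (m + 2) t (ins m 2 s (frm D)) l₁ l₂ = ∑ a, ∑ b, D.B (D.f b) (D.f a) *
        cn D m t s (l₁ ++ [D.e a] ++ [D.e b]) l₂ := by
      change ∑ a, ∑ b, cn D m t (ins m 2 s (frm D)) (l₁ ++ [D.e a] ++ [D.e b])
        (D.f b :: D.f a :: l₂) = _
      refine Finset.sum_congr rfl fun a _ => Finset.sum_congr rfl fun b _ => ?_
      rw [Num_norm m t (ins m 2 s (frm D)), Num_norm m t s, ← cn_smul_right]
      refine cn_congr [] [] (n₁ := m) (n₂ := m) (by simp) (by simp) (fun l _ => rfl)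
        fun l hl => ?_
      change ins m 2 s (frm D) (l ++ D.f b :: D.f a :: l₂) = _
      unfold ins frm
      have h5 : (l ++ D.f b :: D.f a :: l₂).take m = l := by
        rw [← hl, List.take_left]
      have h6 : (l ++ D.f b :: D.f a :: l₂).drop m = D.f b :: D.f a :: l₂ := by
        rw [← hl, List.drop_left]
      have h7 : (l ++ D.f b :: D.f a :: l₂).drop (m + 2) = l₂ := by
        rw [← List.drop_drop, h6]
        rfl
      rw [h5, h6, h7, mul_comm]
      rfl
    rw [e1, e2]
    refine Finset.sum_congr rfl fun a _ => ?_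
    have h3 := cn_sum_left h m s (l₁ ++ [D.e a]) [] l₂ (by simp; omega) Finset.univ
      (fun b => D.B (D.f b) (D.f a)) D.e
    rw [D.zig] at h3
    exact h3
  rw [key]
  have h4 := hA.ins (m + k) 2 m s (frm D) hs hA.diag (by omega)
  exact hn _ h4

theorem Nt_Cop (hA : AlgForms D alg) {n l : ℕ} {t : List U → F} (h : IsForm D (n + 2) t)
    (hn : Nt D alg (n + 2) t) (hl : l ≤ n) : Nt D alg n (Cop D l t) := by
  induction l generalizing t with
  | zero => exact Nt_ctr hA h hn (Nat.zero_le n)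
  | succ l ih =>
    exact ih (isForm_sw h (by omega)) (Nt_sw hA h hn (by omega)) (by omega)

theorem Nt_slt (hA : AlgForms D alg) {g : U →ₗ[F] U} (hg : SymEven D g) (hs : SlotAlg alg g)
    {n j : ℕ} {t : List U → F} (h : IsForm D n t) (hn : Nt D alg n t) (hj : j < n) :
    Nt D alg n (slt j g t) := by
  intro s hss
  have hs' := hA.form n s hss
  obtain ⟨m, rfl⟩ : ∃ m, n = m + 1 + j := ⟨n - 1 - j, by omega⟩
  have key : cn D (m + 1 + j) (slt j g t) s [] [] = cn D (m + 1 + j) t (slt m g s) [] [] := by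
    refine Num_lift0 (m := m + 1) (m' := m + 1) (k := j) rfl rfl fun l₁ l₂ h₁ h₂ => ?_
    have e1 : cn D (m + 1) (slt j g t) s l₁ l₂ = ∑ i, ∑ a, D.B (D.f a) (g (D.e i)) *
        cn D m t s (l₁ ++ [D.e a]) (D.f i :: l₂) := by
      change ∑ i, cn D m (slt j g t) s (l₁ ++ [D.e i]) (D.f i :: l₂) = _
      refine Finset.sum_congr rfl fun i _ => ?_
      have h3 : cn D m (slt j g t) s (l₁ ++ [D.e i]) (D.f i :: l₂) =
          cn D m t s (l₁ ++ [g (D.e i)]) (D.f i :: l₂) := by
        rw [Num_norm m (slt j g t), Num_norm m t]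
        refine cn_congr [] [] (n₁ := m) (n₂ := m) (by simp) (by simp) (fun l hl => ?_)
          fun l _ => rfl
        have := slt_apply (⇑g) t l₁ l (D.e i) h₁
        simpa using this
      have h4 := cn_sum_left h m s l₁ [] (D.f i :: l₂) (by simp; omega) Finset.univ
        (fun a => D.B (D.f a) (g (D.e i))) D.e
      rw [D.zig] at h4
      rw [h3]
      exact h4
    have e2 : cn D (m + 1) t (slt m g s) l₁ l₂ = ∑ a, ∑ i, D.B (D.f a) (g (D.e i)) *
        cn D m t s (l₁ ++ [D.e a]) (D.f i :: l₂) := by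
      change ∑ a, cn D m t (slt m g s) (l₁ ++ [D.e a]) (D.f a :: l₂) = _
      refine Finset.sum_congr rfl fun a _ => ?_
      have h3 : cn D m t (slt m g s) (l₁ ++ [D.e a]) (D.f a :: l₂) =
          cn D m t s (l₁ ++ [D.e a]) (g (D.f a) :: l₂) := by
        rw [Num_norm m t (slt m g s), Num_norm m t s]
        refine cn_congr [] [] (n₁ := m) (n₂ := m) (by simp) (by simp) (fun l _ => rfl)
          fun l hl => ?_
        exact slt_apply (⇑g) s l l₂ (D.f a) hl
      have h4 := cn_sum_right hs' m t (l₁ ++ [D.e a]) [] l₂ (by simp; omega) Finset.univ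
        (fun i => D.B (g (D.f a)) (D.e i)) D.f
      rw [D.zag] at h4
      simp only [hg.symm] at h4
      rw [h3]
      exact h4
    rw [e1, e2, Finset.sum_comm]
  rw [key]
  exact hn _ (hs _ _ _ hss (by omega))

end Pool.Agent.NS3
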