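import Pool.Agent.NS3.Defs
import Pool.Agent.Helper89.NN.Restrict

/-!
# The super space `H(X)` and its algebraic forms

The cohomology of `X` with the parity operator, the Poincaré form and the dual bases of `Powers` is a
super space (without vanishing part: `π = 0`), and the forms of the algebraic cycles on the powers
of `X` have all the closure properties.
-/

namespace Pool.Agent.NS3

open Pool.Agent.Helper29.CPB Pool.Agent.Helper89.NN TT

universe u v

variable {F : Type u} [Field F] [CharZero F] {X : Variety.{u, v} F}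

/-- the parity of a basis vector -/
private noncomputable def OfPow_par (P : Powers X) (j : Fin P.r) : Bool :=
  decide (Odd (P.bases.homog j).choose)

private lemma OfPow_e (P : Powers X) (j : Fin P.r) :
    X.sgn (P.e j) = sp F (OfPow_par P j) • P.e j := by
  rw [X.sgn_apply (P.bases.homog j).choose_spec]
  unfold OfPow_par
  rcases Int.even_or_odd (P.bases.homog j).choose with h | h
  · rw [decide_eq_false (Int.not_odd_iff_even.mpr h), sp_false,
      (Int.natAbs_even.mpr h).neg_one_pow]
  · rw [decide_eq_true h, sp_true, (Int.natAbs_odd.mpr h).neg_one_pow]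

private lemma OfPow_f (P : Powers X) (j : Fin P.r) :
    X.sgn (P.f j) = sp F (OfPow_par P j) • P.f j := by
  have h1 : ∀ i, P.B (X.sgn (P.f j)) (P.e i) = if i = j then sp F (OfPow_par P j) else 0 := by
    intro i
    have h := dual_sgn P.duality (X.sgn (P.f j)) (P.e i)
    rw [sgn_sgn, OfPow_e, map_smul, smul_eq_mul, P.bases.dual] at h
    rw [← h]
    by_cases hij : i = j
    · rw [if_pos hij, if_pos hij.symm, hij, mul_one]
    · rw [if_neg hij, if_neg (Ne.symm hij), mul_zero]
  rw [← Powers.zag P (X.sgn (P.f j)), Finset.sum_congr rfl fun i _ => by rw [h1 i]]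
  simp only [ite_smul, zero_smul]
  rw [Finset.sum_ite_eq' Finset.univ j, if_pos (Finset.mem_univ j)]

/-- the super space -/
private noncomputable def OfPow_D (P : Powers X) : SS F X.H (Fin P.r) where
  ε := X.sgn
  B := P.B
  e := P.e
  f := P.f
  p := OfPow_par P
  q := fun _ => false
  π := 0
  ε_e := OfPow_e P
  ε_f := OfPow_f P
  εε := sgn_sgn
  B_ε := dual_sgn P.duality
  B_symm := dual_symm P.duality
  zig := P.bases.span
  zag := Powers.zag P
  dual_self := fun i => by rw [P.bases.dual, if_pos rfl]
  dual_ne := fun i j h => by rw [P.bases.dual, if_neg h]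
  π_e := fun i => by simp
  π_f := fun i => by simp
  ππ := fun x => by simp
  B_π := fun x y => by simp
  ε_π := fun x => by simp
  p_q := fun i h => by simp at h

private theorem OfPow_alg (P : Powers X) : AlgForms (OfPow_D P) P.cyc where
  form n t ht := by
    have hf := P.cycles.form n t ht
    exact ⟨fun l₁ l₂ x y hl => hf.add l₁ l₂ x y hl, fun l₁ l₂ c x hl => hf.smul l₁ l₂ c x hl,
      hf.even⟩
  congr n t t' ht h := P.cycles.congr n t t' ht h
  add n t t' ht ht' := P.cycles.add n t t' ht ht'
  smul n r t ht := P.cycles.smul n r t ht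
  one := P.cycles.one
  diag := by
    obtain ⟨t, ht, ht'⟩ := P.cycles.corr 1 X.corr_one
    refine P.cycles.congr 2 t _ ht fun l hl => ?_
    match l, hl with
    | [x, y], _ =>
      show P.B x y = t [x, y]
      rw [ht']
      rfl
  ins m n i t t' ht ht' hi := P.cycles.prod m n i t t' ht ht' hi
  swap n i t ht hi := by
    obtain ⟨t₁, ht₁, h'⟩ := P.cycles.swap n i t ht hi
    refine P.cycles.congr n t₁ _ ht₁ fun l hl => ?_
    obtain ⟨l₁, x, y, l₂, rfl, hl₁⟩ : ∃ l₁ x y l₂, l = l₁ ++ x :: y :: l₂ ∧ l₁.length = i := by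
      refine ⟨l.take i, l[i], l[i + 1], l.drop (i + 2), ?_, by simp; omega⟩
      rw [List.cons_getElem_drop_succ, List.cons_getElem_drop_succ, List.take_append_drop]
    unfold sw
    rw [← hl₁, List.drop_left, List.take_left]
    have hlen : l₁.length + l₂.length + 2 = n := by simp at hl; omega
    rw [PData.isSwap_apply (P.cycles.form _ _ ht) (P.cycles.form _ _ ht₁) h' _ _ _ _ hl₁ (by omega)]
    rfl
  contr n i t ht hi := P.cycles.contr n i t ht hi

theorem exists_D (P : Powers X) : ∃ D : SS F X.H (Fin P.r), D.ε = X.sgn ∧ D.B = P.B ∧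
    D.e = P.e ∧ D.f = P.f ∧ AlgForms D P.cyc :=
  ⟨OfPow_D P, rfl, rfl, rfl, rfl, OfPow_alg P⟩

end Pool.Agent.NS3
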