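import Pool.Agent.NS3.Swp

/-!
# Contractions of `Iop`

The Coxeter relations for the transpositions move the insertions and the contractions to the first slots, where the zigzag
identity applies.
-/

namespace Pool.Agent.NS3

open Pool.Agent.Helper89.NN

universe u v w

variable {F : Type u} [Field F] [CharZero F] {U : Type v} [AddCommGroup U] [Module F U]
  {ι : Type w} [Fintype ι] {D : SS F U ι}

theorem act_congr {n : ℕ} {t t' : List U → F} (h : ∀ l, l.length = n → t l = t' l) (ρ : List ℕ)
    (hρ : Valid n ρ) : ∀ l, l.length = n → act D ρ t l = act D ρ t' l := by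
  induction ρ with
  | nil => exact h
  | cons k ρ ih =>
    exact sw_congr (ih fun i hi => hρ i (List.mem_cons_of_mem _ hi)) (hρ k List.mem_cons_self)

omit [Field F] [CharZero F] [AddCommGroup U] [Module F U] in
private theorem rec_split (l : List U) (k : ℕ) (h : k + 2 ≤ l.length) :
    ∃ (m : List U) (y z : U) (r : List U), l = m ++ y :: z :: r ∧ m.length = k := by
  induction k generalizing l with
  | zero =>
    match l, h with
    | y :: z :: r, _ => exact ⟨[], y, z, r, rfl, rfl⟩
  | succ k ih =>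
    match l, h with
    | x :: l', h =>
      obtain ⟨m, y, z, r, h1, h2⟩ := ih l' (by simp at h; omega)
      exact ⟨x :: m, y, z, r, by rw [h1]; rfl, by rw [List.length_cons, h2]⟩

omit [CharZero F] in
private theorem rec_sw {k : ℕ} (t : List U → F) (l₁ l₂ : List U) (x y : U) (h : l₁.length = k) :
    sw D k t (l₁ ++ x :: y :: l₂) = 2⁻¹ * (t (l₁ ++ y :: x :: l₂) + t (l₁ ++ y :: D.ε x :: l₂) +
      t (l₁ ++ D.ε y :: x :: l₂) - t (l₁ ++ D.ε y :: D.ε x :: l₂)) := by
  unfold sw
  rw [← h, List.drop_left, List.take_left]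

theorem PSt_sw {n k : ℕ} {s : List U → F} (h : IsForm D n s) {p : U →ₗ[F] U}
    (hp : SymEven D p) (hs : PSt p n s) (hk : k + 2 ≤ n) : PSt p n (sw D k s) := by
  intro l₁ l₂ x hl
  rcases Nat.lt_trichotomy l₁.length k with hj | hj | hj
  · obtain ⟨m, y, z, r, rfl, hm⟩ := rec_split l₂ (k - l₁.length - 1) (by omega)
    have e1 : ∀ x' : U, l₁ ++ x' :: (m ++ y :: z :: r) = (l₁ ++ x' :: m) ++ y :: z :: r := by
      intro x'
      simp
    have e2 : ∀ (x' y' z' : U), (l₁ ++ x' :: m) ++ z' :: y' :: r = l₁ ++ x' :: (m ++ z' :: y' :: r) := by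
      intro x' y' z'
      simp
    have e3 : ∀ (y' z' : U), s (l₁ ++ p x :: (m ++ z' :: y' :: r)) = s (l₁ ++ x :: (m ++ z' :: y' :: r)) := by
      intro y' z'
      refine hs _ _ _ ?_
      simp at hl ⊢
      omega
    rw [e1, e1, rec_sw _ _ _ _ _ (by simp; omega), rec_sw _ _ _ _ _ (by simp; omega)]
    simp only [e2, e3]
  · match l₂, hl with
    | [], hl =>
      simp at hl
      omega
    | z :: r, hl =>
      rw [rec_sw _ _ _ _ _ hj, rec_sw _ _ _ _ _ hj, ← hp.even x]
      have e3 : ∀ (x' z' : U), s (l₁ ++ z' :: p x' :: r) = s (l₁ ++ z' :: x' :: r) := by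
        intro x' z'
        have h1 := hs (l₁ ++ [z']) r x' (by simp at hl ⊢; omega)
        simpa using h1
      simp only [e3]
  · rcases Nat.lt_or_ge (k + 1) l₁.length with hj' | hj'
    · obtain ⟨m, y, z, r, rfl, hm⟩ := rec_split l₁ k (by omega)
      have e1 : ∀ x' : U, (m ++ y :: z :: r) ++ x' :: l₂ = m ++ y :: z :: (r ++ x' :: l₂) := by
        intro x'
        simp
      have e3 : ∀ (y' z' : U), s (m ++ z' :: y' :: (r ++ p x :: l₂)) = s (m ++ z' :: y' :: (r ++ x :: l₂)) := by
        intro y' z'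
        have h1 := hs (m ++ z' :: y' :: r) l₂ x (by simp at hl ⊢; omega)
        simpa using h1
      rw [e1, e1, rec_sw _ _ _ _ _ hm, rec_sw _ _ _ _ _ hm]
      simp only [e3]
    · have hj2 : l₁.length = k + 1 := by omega
      obtain ⟨m, y, rfl⟩ : ∃ m y, l₁ = m ++ [y] := by
        have h0 : l₁ ≠ [] := by
          rintro rfl
          simp at hj2
        exact ⟨l₁.dropLast, l₁.getLast h0, (List.dropLast_append_getLast h0).symm⟩
      have hm : m.length = k := by
        simp at hj2
        exact hj2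
      have e1 : ∀ x' : U, (m ++ [y]) ++ x' :: l₂ = m ++ y :: x' :: l₂ := by
        intro x'
        simp
      have e3 : ∀ (x' y' : U), s (m ++ p x' :: y' :: l₂) = s (m ++ x' :: y' :: l₂) := by
        intro x' y'
        exact hs m (y' :: l₂) x' (by simp at hl ⊢; omega)
      rw [e1, e1, rec_sw _ _ _ _ _ hm, rec_sw _ _ _ _ _ hm, ← hp.even x]
      simp only [e3]

theorem PSt_act {n : ℕ} {s : List U → F} (h : IsForm D n s) {p : U →ₗ[F] U}
    (hp : SymEven D p) (hs : PSt p n s) (ρ : List ℕ) (hρ : Valid n ρ) :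
    PSt p n (act D ρ s) := by
  induction ρ with
  | nil => exact hs
  | cons k ρ ih =>
    have hρ' : Valid n ρ := fun i hi => hρ i (List.mem_cons_of_mem _ hi)
    exact PSt_sw (isForm_act h ρ hρ') hp (ih hρ') (hρ k List.mem_cons_self)

private theorem rec_Cop_congr {n l : ℕ} {t t' : List U → F} (h : ∀ L, L.length = n + 2 → t L = t' L)
    (hl : l ≤ n) : ∀ L, L.length = n → Cop D l t L = Cop D l t' L := by
  induction l generalizing t t' with
  | zero => exact ctr_congr h hl
  | succ l ih => exact ih (sw_congr h (by omega)) (by omega)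

/-- transpositions of later slots commute with the insertion -/
private theorem rec_sw_Iop {m l k : ℕ} {s : List U → F} (h : IsForm D m s) {p : U →ₗ[F] U}
    (hp : SymEven D p) (hlk : l ≤ k) (hk : k + 2 ≤ m) : ∀ L, L.length = m + 2 →
      sw D (k + 2) (Iop D p s l) L = Iop D p (sw D k s) l L := by
  induction l with
  | zero => exact sw_Iop_zero h p hk
  | succ l ih =>
    intro L hL
    have h1 := sw_comm (isForm_Iop h hp (show l ≤ m by omega)) (show (l + 1) + 2 ≤ k + 2 by omega)
      (show k + 2 + 2 ≤ m + 2 by omega) L hL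
    have h2 := sw_congr (D := D) (k := l + 1) (ih (by omega)) (by omega) L hL
    exact h1.symm.trans h2

/-- transpositions of later slots commute with the contraction -/
private theorem rec_Cop_sw {m l k : ℕ} {t : List U → F} (h : IsForm D (m + 2) t)
    (hlk : l ≤ k) (hk : k + 2 ≤ m) : ∀ L, L.length = m →
      Cop D l (sw D (k + 2) t) L = sw D k (Cop D l t) L := by
  induction l generalizing t with
  | zero => exact ctr_sw h hk
  | succ l ih =>
    intro L hL
    have h1 := rec_Cop_congr (D := D) (l := l) (sw_comm h (show (l + 1) + 2 ≤ k + 2 by omega)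
      (show k + 2 + 2 ≤ m + 2 by omega)) (by omega) L hL
    have h2 := ih (isForm_sw h (show (l + 1) + 2 ≤ m + 2 by omega)) (by omega) L hL
    exact h1.trans h2

theorem Cop_Iop_same {m l : ℕ} {s : List U → F} (h : IsForm D m s) {p : U →ₗ[F] U}
    (hp : SymEven D p) (hl : l ≤ m) : ∀ L, L.length = m →
      Cop D l (Iop D p s l) L = (∑ i, D.B (p (D.e i)) (D.f i)) * s L := by
  induction l with
  | zero => exact ctr_Iop_zero p
  | succ l ih =>
    intro L hL
    have h1 := rec_Cop_congr (D := D) (l := l) (sw_sw (isForm_Iop h hp (show l ≤ m by omega))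
      (show (l + 1) + 2 ≤ m + 2 by omega)) (by omega) L hL
    exact h1.trans (ih (by omega) L hL)

/-- the zigzag identity in the slot `l` -/
private theorem rec_zig {m l : ℕ} {s : List U → F} (h : IsForm D m s) {p : U →ₗ[F] U}
    (hp : SymEven D p) (hs : PSt p m s) (hl : l + 1 ≤ m) : ∀ L, L.length = m →
      Cop D l (Iop D p s (l + 1)) L = s L := by
  induction l generalizing s with
  | zero => exact zigzag h hp hs hl
  | succ l ih =>
    intro L hL
    have hI := isForm_Iop h hp (show l ≤ m by omega)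
    have h1 := rec_Cop_congr (D := D) (l := l) (sw_braid hI (show (l + 1) + 3 ≤ m + 2 by omega)) (by omega) L hL
    have h2 := rec_Cop_congr (D := D) (l := l) (sw_congr (D := D) (k := l + 2) (sw_congr (D := D) (k := l + 1)
      (rec_sw_Iop h hp (le_refl l) (show l + 2 ≤ m by omega)) (by omega)) (by omega)) (by omega) L hL
    have hs2 : IsForm D m (sw D l s) := isForm_sw h (by omega)
    have h3 := rec_Cop_sw (l := l) (k := l) (isForm_Iop hs2 hp (show l + 1 ≤ m by omega)) le_rfl (by omega) L hL
    have h4 := sw_congr (D := D) (k := l) (ih hs2 (PSt_sw h hp hs (by omega)) (by omega)) (by omega) L hL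
    have h5 := sw_sw h (show l + 2 ≤ m by omega) L hL
    exact ((h1.trans h2).trans h3).trans (h4.trans h5)

omit [CharZero F] in
private theorem rec_act_append (ρ ρ' : List ℕ) (s : List U → F) :
    act D (ρ ++ ρ') s = act D ρ (act D ρ' s) := by
  induction ρ with
  | nil => rfl
  | cons k ρ ih =>
    show sw D k (act D (ρ ++ ρ') s) = sw D k (act D ρ (act D ρ' s))
    rw [ih]

private theorem rec_up {m j : ℕ} {p : U →ₗ[F] U} (hp : SymEven D p) (d : ℕ) (hd : j + 1 + d ≤ m) :
    ∃ ρ : List ℕ, Valid m ρ ∧ ∀ s : List U → F, IsForm D m s → PSt p m s →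
      ∀ L, L.length = m → Cop D (j + 1 + d) (Iop D p s j) L = act D ρ s L := by
  induction d with
  | zero => exact ⟨[], fun _ h => absurd h List.not_mem_nil, fun s h hs => rec_zig h hp hs (by omega)⟩
  | succ d ih =>
    obtain ⟨ρ, h1, h2⟩ := ih (by omega)
    refine ⟨ρ ++ [j + d], fun k hk => ?_, fun s h hs L hL => ?_⟩
    · rcases List.mem_append.1 hk with h | h
      · exact h1 k h
      · rw [List.mem_singleton.1 h]
        omega
    · rw [rec_act_append]
      have h3 := rec_Cop_congr (D := D) (l := j + 1 + d) (rec_sw_Iop h hp (show j ≤ j + d by omega)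
        (show j + d + 2 ≤ m by omega)) (by omega) L hL
      have e : j + 1 + d + 1 = j + d + 2 := by omega
      have h4 : Cop D (j + 1 + (d + 1)) (Iop D p s j) = Cop D (j + 1 + d) (sw D (j + d + 2) (Iop D p s j)) := by
        rw [← e]
        rfl
      rw [h4]
      exact h3.trans (h2 _ (isForm_sw h (by omega)) (PSt_sw h hp hs (by omega)) L hL)

private theorem rec_down {m l : ℕ} {p : U →ₗ[F] U} (hp : SymEven D p) (d : ℕ) (hd : l + 1 + d ≤ m) :
    ∃ ρ : List ℕ, Valid m ρ ∧ ∀ s : List U → F, IsForm D m s → PSt p m s →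
      ∀ L, L.length = m → Cop D l (Iop D p s (l + 1 + d)) L = act D ρ s L := by
  induction d with
  | zero => exact ⟨[], fun _ h => absurd h List.not_mem_nil, fun s h hs => rec_zig h hp hs (by omega)⟩
  | succ d ih =>
    obtain ⟨ρ, h1, h2⟩ := ih (by omega)
    refine ⟨(l + d) :: ρ, fun k hk => ?_, fun s h hs L hL => ?_⟩
    · rcases List.mem_cons.1 hk with h | h
      · rw [h]
        omega
      · exact h1 k h
    · have h3 := rec_Cop_sw (l := l) (k := l + d) (isForm_Iop h hp (show l + 1 + d ≤ m by omega)) (by omega)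
        (by omega) L hL
      have e : l + 1 + d + 1 = l + d + 2 := by omega
      have h4 : Iop D p s (l + 1 + (d + 1)) = sw D (l + d + 2) (Iop D p s (l + 1 + d)) := by
        rw [← e]
        rfl
      rw [h4]
      exact h3.trans (sw_congr (h2 s h hs) (by omega) L hL)

theorem Cop_Iop_ne {m l j : ℕ} {p : U →ₗ[F] U} (hp : SymEven D p) (hl : l ≤ m) (hj : j ≤ m)
    (hlj : l ≠ j) : ∃ ρ : List ℕ, Valid m ρ ∧ ∀ s : List U → F, IsForm D m s → PSt p m s →
      ∀ L, L.length = m → Cop D l (Iop D p s j) L = act D ρ s L := by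
  rcases Nat.lt_or_gt_of_ne hlj with h | h
  · obtain ⟨d, rfl⟩ : ∃ d, j = l + 1 + d := ⟨j - l - 1, by omega⟩
    exact rec_down hp d hj
  · obtain ⟨d, rfl⟩ : ∃ d, l = j + 1 + d := ⟨l - j - 1, by omega⟩
    exact rec_up hp d hl

theorem ctε_Iop_succ {m l : ℕ} {p : U →ₗ[F] U} (hp : SymEven D p) (hl : l + 1 ≤ m) :
    ∃ ρ : List ℕ, Valid m ρ ∧ ∀ s : List U → F, IsForm D m s → PSt p m s →
      ∀ L, L.length = m → ctε D (Iop D p s (l + 1)) L = slt l D.ε (act D ρ s) L := by
  induction l with
  | zero => exact ⟨[], fun _ h => absurd h List.not_mem_nil, fun s h hs => zigzag_ε h hp hs hl⟩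
  | succ l ih =>
    obtain ⟨ρ, h1, h2⟩ := ih (by omega)
    refine ⟨l :: ρ, fun k hk => ?_, fun s h hs L hL => ?_⟩
    · rcases List.mem_cons.1 hk with h | h
      · rw [h]
        omega
      · exact h1 k h
    · have h3 := ctε_sw (k := l) (isForm_Iop h hp (show l + 1 ≤ m by omega)) (by omega) L hL
      have h4 := sw_congr (D := D) (k := l) (h2 s h hs) (by omega) L hL
      have h5 := sw_slt_ε (isForm_act h ρ h1) (show l + 2 ≤ m by omega) L hL
      exact h3.trans (h4.trans h5)

end Pool.Agent.NS3
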