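import Pool.Agent.Helper90.NS.Statement

/-!
# The cycles on the powers of a generic complete intersection

Addition to `Pool.Agent.Helper89.NN.Statement`.
-/

namespace Pool.Agent.NS3

open Pool.Agent.Helper29.CPB Pool.Agent.Helper89.NN

universe u v

variable {F : Type u} [Field F]

/-- `d` is the exterior product of the class of the diagonal of `X × X`, placed on the factors `0`
and `l + 1` of `X^(n+2)`, and of the cycle `s` on the product of the other factors: `Δ × s` for
`l = 0`, and then the second factor is moved step by step to the place `l + 1`. -/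
def IsDiagAt {X : Variety.{u, v} F} (P : Powers X) (n : ℕ) (s : List X.H → F) :
    ℕ → (List X.H → F) → Prop
  | 0, d => P.cyc (n + 2) d ∧ ∀ (x y : X.H) (l : List X.H), l.length = n →
      d (x :: y :: l) = P.B x y * s l
  | l + 1, d => P.cyc (n + 2) d ∧ ∃ d', IsDiagAt P n s l d' ∧ IsSwap X.π (n + 2) (l + 1) d' d

/-- The cycles on the powers `S^n`, `n ≤ N`, of the intersection `S` of `s` generic members of `|mL|`
in `Z`, `m` large: any `N` distinct points of `Z` impose independent conditions on `|mL|` (for `L` very
ample: `m ≥ N - 1`).
* `orth`: the projection formula.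
* `cycZ n j`: the algebraic cycles of codimension `n dim S / 2` on `S^j × Z × S^(n-1-j)`, given by the
  forms `t l₁ x l₂ = ∫ z ∪ (l₁ × x × l₂)`; they are stable under the correspondences of `Z`.
* `restrict`: their pull-backs to `S^n`.
* `incidence`: let `𝒮 → |mL|^s` be the universal complete intersection. The part of its `n`-th fibre
  power over the points of `Z^n` with a given set of coincidences is a fibre product of projective
  bundles whose tautological classes come from `|mL|^s`. Hence (closure, localisation, projective
  bundle formula) every cycle on `S^n` is a sum of cycles `δ_*(i^* α)`, where `δ : S^b → S^n` is the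
  diagonal map attached to a partition of the set of the factors in `b` blocks and `i^* α` is the
  restriction of a cycle `α` on `Z^b`, of codimension `(b - n / 2) dim S` if `δ_*(i^* α)` has
  codimension `n dim S / 2`. If there is a block with one element, this cycle is the restriction of
  a cycle on some `S^j × Z × S^(n-1-j)`. If not, then `b = n / 2` since `dim S > 0`, all blocks have
  two elements and `α` is a rational number, so the cycle is the exterior product of the diagonal on
  the factor `0` and its partner with a cycle on the other factors. -/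
structure PowerIncidence {Z S : Variety.{u, v} F} {s : ℕ} (P : Powers S)
    (G : GenericSection Z S s) (N : ℕ) where
  orth : ∀ z y, G.dn y = 0 → P.B (G.up z) y = 0
  /-- the cycles on `S^j × Z × S^(n-1-j)` -/
  cycZ : ℕ → ℕ → (List S.H → Z.H → List S.H → F) → Prop
  comp : ∀ n j t g, cycZ n j t → Z.alg 0 g → cycZ n j (fun l₁ x l₂ => t l₁ (g x) l₂)
  restrict : ∀ n j t, j < n → cycZ n j t → ∃ r, P.cyc n r ∧ ∀ (l₁ l₂ : List S.H) (y : S.H),
    l₁.length = j → j + l₂.length + 1 = n → r (l₁ ++ y :: l₂) = t l₁ (G.dn y) l₂
  incidence : ∀ n, n + 2 ≤ N → ∀ t, P.cyc (n + 2) t →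
    ∃ (a d : Fin (n + 1) → List S.H → F) (r : Fin (n + 2) → List S.H → F)
      (z : Fin (n + 2) → List S.H → Z.H → List S.H → F),
      (∀ l, P.cyc n (a l) ∧ IsDiagAt P n (a l) l (d l)) ∧
      (∀ j, P.cyc (n + 2) (r j) ∧ cycZ (n + 2) j (z j) ∧
        ∀ (l₁ l₂ : List S.H) (y : S.H), l₁.length = j → j + l₂.length + 1 = n + 2 →
          r j (l₁ ++ y :: l₂) = z j l₁ (G.dn y) l₂) ∧
      ∀ l : List S.H, l.length = n + 2 → t l = ∑ i, d i l + ∑ j, r j l

end Pool.Agent.NS3
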