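import Pool.Agent.NS3.Core
import Pool.Agent.NS3.OfPow
import Pool.Agent.NS3.Stat
import Pool.Agent.NS3.Idem

/-!
# The hypotheses of `core` for a generic complete intersection
-/

namespace Pool.Agent.NS3

open Pool.Agent.Helper29.CPB Pool.Agent.Helper89.NN TT
open Pool.Agent.Helper90.NS hiding sw sg

universe u v

variable {F : Type u} [Field F] [CharZero F] {Z S : Variety.{u, v} F}

lemma link_eq_cn {P : Powers S} (D : SS F S.H (Fin P.r)) (he : D.e = P.e) (hf : D.f = P.f)
    (m : ℕ) (t s : List S.H → F) : ∀ l₁ l₂, linkForm P.e P.f m t s l₁ l₂ = cn D m t s l₁ l₂ := by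
  induction m with
  | zero => intro _ _; rfl
  | succ m ih =>
    intro l₁ l₂
    show ∑ j, linkForm P.e P.f m t s (l₁ ++ [P.e j]) (P.f j :: l₂) =
      ∑ j, cn D m t s (l₁ ++ [D.e j]) (D.f j :: l₂)
    rw [he, hf]
    exact Finset.sum_congr rfl fun j _ => ih _ _

section kill

variable {s : ℕ} {P : Powers S} {G : GenericSection Z S s} (D : SS F S.H (Fin P.r))

/-- `t` vanishes if the vector in the slot `j` is in the vanishing cohomology -/
def Kills (G : GenericSection Z S s) (n j : ℕ) (t : List S.H → F) : Prop :=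
  ∀ (l₁ l₂ : List S.H) (y : S.H), l₁.length = j → l₁.length + l₂.length + 1 = n → G.dn y = 0 →
    t (l₁ ++ y :: l₂) = 0

private lemma kills_sw (hε : D.ε = S.sgn) {n j : ℕ} {t : List S.H → F} (hj : j + 2 ≤ n)
    (h : Kills G n (j + 1) t) : Kills G n j (sw D j t) := by
  intro l₁ l₂ y h1 h2 hy
  obtain ⟨x, l₃, rfl⟩ : ∃ x l₃, l₂ = x :: l₃ := by
    cases l₂ with
    | nil => simp at h2; omega
    | cons x l₃ => exact ⟨x, l₃, rfl⟩
  have hk : ∀ a b, G.dn b = 0 → t (l₁ ++ a :: b :: l₃) = 0 := by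
    intro a b hb
    have := h (l₁ ++ [a]) l₃ b (by simp; omega) (by simp at h2 ⊢; omega) hb
    simpa using this
  have hy' : G.dn (D.ε y) = 0 := by rw [hε, Pool.Agent.Helper90.NS.CI.dn_sgn, hy, map_zero]
  unfold sw
  rw [← h1, List.drop_left, List.take_left]
  show 2⁻¹ * (t _ + t _ + t _ - t _) = 0
  rw [hk _ _ hy, hk _ _ hy', hk _ _ hy, hk _ _ hy']
  ring

private lemma mp_sw {p : S.H →ₗ[F] S.H} (hp : SymEven D p) (k : ℕ) (t : List S.H → F)
    (L : List S.H) : mp p (sw D k t) L = sw D k (mp p t) L := by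
  show sw D k t (L.map p) = sw D k (mp p t) L
  unfold sw mp
  rw [← List.map_drop]
  cases L.drop k with
  | nil => rfl
  | cons x m =>
    cases m with
    | nil => rfl
    | cons y m => simp only [List.map_cons, List.map_append, List.map_take, hp.even]

/-- the base case: the slot `0` -/
private lemma kills_zero (hA : AlgForms D P.cyc) (he : D.e = P.e) (hf : D.f = P.f)
    {p : Module.End F S.H} (hp1 : p ∈ S.corr 0)
    (hv : ∀ y, G.dn y = 0 → p y = y) (hpp : ∀ x, p (p x) = p x)
    (hN : ∀ θ, IdC G θ → NT S (θ * p)) {n : ℕ} (hn : 0 < n) {t : List S.H → F}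
    (hmp : P.cyc n (mp p t)) (h : Kills G n 0 t) : Nt D P.cyc n (mp p t) := by
  obtain ⟨m, rfl⟩ : ∃ m, n = m + 1 := ⟨n - 1, by omega⟩
  intro s hs
  show ∑ i, cn D m (mp p t) s ([] ++ [D.e i]) [D.f i] = 0
  have ha : P.cyc 2 (fun l => cn D m (mp p t) s (l.take 1) (l.drop 1)) :=
    AlgForms.cn hA hmp hs m 1 1 (by omega) (by omega)
  obtain ⟨g, hg, hg'⟩ := P.cycles.corr' _ ha
  have hg1 : ∀ x y, cn D m (mp p t) s [x] [y] = P.B (g x) y := fun x y => hg' x y
  have hcons : ∀ x y, cn D m (mp p t) s [x] [y] =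
      cn D m (fun l => mp p t (x :: l)) s [] [y] := fun x y => cn_cons m _ _ x [] [y]
  have hId : IdC G g := by
    refine ⟨hg, fun y hy => ?_⟩
    apply P.duality.nondeg
    intro z
    rw [← hg1, hcons, cn_congr (n₁ := m) (n₂ := m + 1) [] [z] (by simp) (by simp; omega)
      (P' := fun _ => 0) (Q' := s) (fun l hl => ?_) (fun _ _ => rfl), cn_zero_left]
    show t (p y :: l.map p) = 0
    rw [hv y hy]
    exact h [] (l.map p) y rfl (by simp; omega) hy
  have hp2 : ∀ x y, cn D m (mp p t) s [p x] [y] = cn D m (mp p t) s [x] [y] := by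
    intro x y
    rw [hcons, hcons]
    congr 1
    funext l
    show t (p (p x) :: l.map p) = t (p x :: l.map p)
    rw [hpp]
  have h1 : ∀ i, cn D m (mp p t) s ([] ++ [D.e i]) [D.f i] = P.B ((g * p) (P.e i)) (P.f i) := by
    intro i
    rw [he, hf, List.nil_append, ← hp2, hg1]
    rfl
  rw [Finset.sum_congr rfl fun i _ => h1 i, ← P.str_eq (S.corr_mul' (by ring) hg hp1)]
  have h2 := hN g hId 1 S.corr_one
  rwa [one_mul] at h2

/-- forms restricted from `Z` in one place are numerically trivial after insertion of `p` -/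
lemma kills_Nt (hA : AlgForms D P.cyc) (hε : D.ε = S.sgn) (he : D.e = P.e)
    (hf : D.f = P.f) {p : Module.End F S.H} (hp : SymEven D p) (hp1 : p ∈ S.corr 0)
    (hv : ∀ y, G.dn y = 0 → p y = y) (hpp : ∀ x, p (p x) = p x)
    (hmp : ∀ n t, P.cyc n t → P.cyc n (mp p t))
    (hN : ∀ θ, IdC G θ → NT S (θ * p)) {n : ℕ} : ∀ (j : ℕ), j < n → ∀ t, P.cyc n t →
      Kills G n j t → Nt D P.cyc n (mp p t) := by
  intro j
  induction j with
  | zero =>
    intro hj t ht h
    exact kills_zero D hA he hf hp1 hv hpp hN hj (hmp n t ht) h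
  | succ j ih =>
    intro hj t ht h
    have ht' := hA.swap n j t ht (by omega)
    have h1 := ih (by omega) _ ht' (kills_sw D hε (by omega) h)
    have h2 := Nt_sw hA (hA.form _ _ (hmp n _ ht')) h1 (k := j) (by omega)
    refine Nt_congr h2 fun L hL => ?_
    rw [← mp_sw D hp]
    show t (L.map p) = sw D j (sw D j t) (L.map p)
    rw [sw_sw (hA.form _ _ ht) (by omega) _ (by rw [List.length_map]; exact hL)]

end kill

/-- `Iop` is the product with the diagonal -/
lemma diag_eq {P : Powers S} (D : SS F S.H (Fin P.r)) (hε : D.ε = S.sgn)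
    (hB : D.B = P.B) {n : ℕ} {s : List S.H → F} : ∀ (l : ℕ), l ≤ n → ∀ d, IsDiagAt P n s l d →
      P.cyc (n + 2) d ∧ ∀ L : List S.H, L.length = n + 2 → d L = Iop D LinearMap.id s l L := by
  intro l
  induction l with
  | zero =>
    intro _ d hd
    refine ⟨hd.1, ?_⟩
    intro L hL
    match L, hL with
    | x :: y :: L, hL =>
      rw [hd.2 x y L (by simpa using hL)]
      show P.B x y * s L = s L * D.B x y
      rw [hB, mul_comm]
  | succ l ih =>
    intro hl d hd
    obtain ⟨hd1, d', hd', hsw⟩ := hd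
    obtain ⟨hc', heq⟩ := ih (by omega) d' hd'
    refine ⟨hd1, fun L hL => ?_⟩
    obtain ⟨l₁, x, y, l₂, rfl, hl₁⟩ : ∃ l₁ x y l₂, L = l₁ ++ x :: y :: l₂ ∧
        l₁.length = l + 1 := by
      refine ⟨L.take (l + 1), L[l + 1], L[l + 2], L.drop (l + 3), ?_, by simp; omega⟩
      rw [List.cons_getElem_drop_succ, List.cons_getElem_drop_succ, List.take_append_drop]
    have hlen : l + 1 + l₂.length + 2 = n + 2 := by simp at hL; omega
    rw [PData.isSwap_apply (P.cycles.form _ _ hc') (P.cycles.form _ _ hd1) hsw _ _ _ _ hl₁ hlen]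
    show _ = sw D (l + 1) (Iop D LinearMap.id s l) _
    unfold sw
    rw [← hl₁, List.drop_left, List.take_left]
    show _ = 2⁻¹ * (Iop D LinearMap.id s l _ + Iop D LinearMap.id s l _ +
      Iop D LinearMap.id s l _ - Iop D LinearMap.id s l _)
    have hL' : ∀ a b : S.H, (l₁ ++ a :: b :: l₂).length = n + 2 := by intro a b; simp; omega
    rw [heq _ (hL' _ _), heq _ (hL' _ _), heq _ (hL' _ _), heq _ (hL' _ _), hε]

end Pool.Agent.NS3
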