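import Pool.Agent.NS3.Form

/-!
# Relations between transpositions, insertions and contractions

The transpositions of neighbouring slots satisfy the relations of the symmetric group on forms (checked on the
homogeneous vectors of the basis), they commute with the insertion and the contraction of the first two
slots, and the contraction of an insertion is a number (slots `0`, `1`) or nothing (the zigzag identities).
-/

namespace Pool.Agent.NS3

open Pool.Agent.Helper89.NN

universe u v w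

variable {F : Type u} [Field F] [CharZero F] {U : Type v} [AddCommGroup U] [Module F U]
  {ι : Type w} [Fintype ι] {D : SS F U ι}

omit [CharZero F] in
private lemma swp_split {α : Type*} (l : List α) (k : ℕ) (h : k + 2 ≤ l.length) :
    ∃ (l₁ : List α) (x y : α) (l₂ : List α), l = l₁ ++ x :: y :: l₂ ∧ l₁.length = k := by
  refine ⟨l.take k, l[k], l[k + 1], l.drop (k + 2), ?_, by simp; omega⟩
  have h1 : l.drop k = l[k] :: l.drop (k + 1) := List.drop_eq_getElem_cons (by omega)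
  have h2 : l.drop (k + 1) = l[k + 1] :: l.drop (k + 1 + 1) :=
    List.drop_eq_getElem_cons (by omega)
  calc l = l.take k ++ l.drop k := (List.take_append_drop k l).symm
    _ = _ := by rw [h1, h2]

omit [CharZero F] in
private lemma swp_sw (t : List U → F) (l₁ l₂ : List U) (x y : U) {k : ℕ} (h : l₁.length = k) :
    sw D k t (l₁ ++ x :: y :: l₂) = 2⁻¹ * (t (l₁ ++ y :: x :: l₂) + t (l₁ ++ y :: D.ε x :: l₂) +
      t (l₁ ++ D.ε y :: x :: l₂) - t (l₁ ++ D.ε y :: D.ε x :: l₂)) := by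
  unfold sw
  rw [← h, List.drop_left, List.take_left]

omit [CharZero F] in
private lemma swp_Iop (p : U →ₗ[F] U) (s : List U → F) (x y : U) (l : List U) :
    Iop D p s 0 (x :: y :: l) = s l * D.B (p x) y := by
  show ins 0 2 s (fun l => D.B (p (l.getD 0 0)) (l.getD 1 0)) (x :: y :: l) = _
  unfold ins
  simp

omit [CharZero F] in
private lemma swp_ctr (t : List U → F) (l : List U) :
    ctr D 0 t l = ∑ i, t (D.e i :: D.f i :: l) := by
  unfold ctr
  simp

omit [CharZero F] in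
private lemma swp_Bε (x y : U) : D.B (D.ε x) y = D.B x (D.ε y) := by
  have h := D.B_ε x (D.ε y)
  rwa [D.εε] at h

theorem sw_congr {n k : ℕ} {t t' : List U → F} (h : ∀ l, l.length = n → t l = t' l)
    (hk : k + 2 ≤ n) : ∀ l, l.length = n → sw D k t l = sw D k t' l := by
  intro l hl
  obtain ⟨l₁, x, y, l₂, rfl, h1⟩ := swp_split l k (by omega)
  have hn : ∀ a b : U, (l₁ ++ a :: b :: l₂).length = n := fun a b => by
    simp at hl ⊢
    omega
  rw [swp_sw t l₁ l₂ x y h1, swp_sw t' l₁ l₂ x y h1, h _ (hn _ _), h _ (hn _ _), h _ (hn _ _),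
    h _ (hn _ _)]

theorem ctr_congr {n k : ℕ} {t t' : List U → F} (h : ∀ l, l.length = n + 2 → t l = t' l)
    (hk : k ≤ n) : ∀ l, l.length = n → ctr D k t l = ctr D k t' l := by
  intro l hl
  unfold ctr
  refine Finset.sum_congr rfl fun i _ => h _ ?_
  simp
  omega

theorem sw_sw {n k : ℕ} {t : List U → F} (h : IsForm D n t) (hk : k + 2 ≤ n) :
    ∀ l, l.length = n → sw D k (sw D k t) l = t l := by
  refine (isForm_sw (isForm_sw h hk) hk).ext_e h fun l hl => ?_
  obtain ⟨l₁, x, y, l₂, rfl, h1⟩ := swp_split l k (by omega)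
  simp only [List.map_append, List.map_cons]
  have h2 : (l₁.map D.e).length = k := by simpa using h1
  have h3 : k + (l₂.map D.e).length + 2 = n := by
    simp at hl ⊢
    omega
  rw [sw_apply (isForm_sw h hk) _ _ _ _ h2 h3 (D.par_e x) (D.par_e y),
    sw_apply h _ _ _ _ h2 h3 (D.par_e y) (D.par_e x), ← mul_assoc, sg_comm (D.p y) (D.p x),
    sg_mul_sg, one_mul]

theorem sw_comm {n k k' : ℕ} {t : List U → F} (h : IsForm D n t) (hk : k + 2 ≤ k')
    (hk' : k' + 2 ≤ n) : ∀ l, l.length = n → sw D k (sw D k' t) l = sw D k' (sw D k t) l := by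
  have hk1 : k + 2 ≤ n := by omega
  refine (isForm_sw (isForm_sw h hk') hk1).ext_e (isForm_sw (isForm_sw h hk1) hk') fun l hl => ?_
  obtain ⟨l₁, x, y, l₂, rfl, h1⟩ := swp_split l k (by omega)
  obtain ⟨l₃, z, w, l₄, rfl, h2⟩ := swp_split l₂ (k' - (k + 2)) (by simp at hl; omega)
  simp only [List.map_append, List.map_cons]
  have e1 : (l₁.map D.e).length = k := by simpa using h1
  have e2 : ∀ a b : ι, k + (l₃.map D.e ++ D.e a :: D.e b :: l₄.map D.e).length + 2 = n :=
    fun a b => by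
      simp at hl ⊢
      omega
  have e3 : ∀ a b : ι, (l₁.map D.e ++ D.e a :: D.e b :: l₃.map D.e).length = k' := fun a b => by
    simp
    omega
  have e4 : k' + (l₄.map D.e).length + 2 = n := by
    simp at hl ⊢
    omega
  have e5 : ∀ a b c d : ι, l₁.map D.e ++ D.e a :: D.e b :: (l₃.map D.e ++ D.e c :: D.e d ::
      l₄.map D.e) = (l₁.map D.e ++ D.e a :: D.e b :: l₃.map D.e) ++ D.e c :: D.e d ::
      l₄.map D.e := fun a b c d => by simp
  rw [sw_apply (isForm_sw h hk') _ _ _ _ e1 (e2 z w) (D.par_e x) (D.par_e y), e5 y x z w,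
    sw_apply h _ _ _ _ (e3 y x) e4 (D.par_e z) (D.par_e w), e5 x y z w,
    sw_apply (isForm_sw h hk1) _ _ _ _ (e3 x y) e4 (D.par_e z) (D.par_e w), ← e5 x y w z,
    sw_apply h _ _ _ _ e1 (e2 w z) (D.par_e x) (D.par_e y), e5 y x w z]
  ring

theorem sw_braid {n k : ℕ} {t : List U → F} (h : IsForm D n t) (hk : k + 3 ≤ n) :
    ∀ l, l.length = n → sw D k (sw D (k + 1) (sw D k t)) l =
      sw D (k + 1) (sw D k (sw D (k + 1) t)) l := by
  have hk0 : k + 2 ≤ n := by omega
  have hk1 : k + 1 + 2 ≤ n := by omega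
  refine (isForm_sw (isForm_sw (isForm_sw h hk0) hk1) hk0).ext_e
    (isForm_sw (isForm_sw (isForm_sw h hk1) hk0) hk1) fun l hl => ?_
  obtain ⟨l₁, x, y, l₂, rfl, h1⟩ := swp_split l k (by omega)
  obtain ⟨z, l₃, rfl⟩ : ∃ z l₃, l₂ = z :: l₃ := by
    cases l₂ with
    | nil => simp at hl; omega
    | cons z l₃ => exact ⟨z, l₃, rfl⟩
  simp only [List.map_append, List.map_cons]
  have e1 : (l₁.map D.e).length = k := by simpa using h1
  have e2 : ∀ a : ι, k + (D.e a :: l₃.map D.e).length + 2 = n := fun a => by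
    simp at hl ⊢
    omega
  have e3 : ∀ a : ι, (l₁.map D.e ++ [D.e a]).length = k + 1 := fun a => by
    simp
    omega
  have e4 : k + 1 + (l₃.map D.e).length + 2 = n := by
    simp at hl ⊢
    omega
  have e5 : ∀ a b c : ι, l₁.map D.e ++ D.e a :: D.e b :: D.e c :: l₃.map D.e =
      (l₁.map D.e ++ [D.e a]) ++ D.e b :: D.e c :: l₃.map D.e := fun a b c => by simp
  have s0 : ∀ {u : List U → F} (hu : IsForm D n u) (a b c : ι),
      sw D k u (l₁.map D.e ++ D.e a :: D.e b :: D.e c :: l₃.map D.e) =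
        sg F (D.p a) (D.p b) * u (l₁.map D.e ++ D.e b :: D.e a :: D.e c :: l₃.map D.e) :=
    fun hu a b c => sw_apply hu _ _ _ _ e1 (e2 c) (D.par_e a) (D.par_e b)
  have s1 : ∀ {u : List U → F} (hu : IsForm D n u) (a b c : ι),
      sw D (k + 1) u (l₁.map D.e ++ D.e a :: D.e b :: D.e c :: l₃.map D.e) =
        sg F (D.p b) (D.p c) * u (l₁.map D.e ++ D.e a :: D.e c :: D.e b :: l₃.map D.e) :=
    fun hu a b c => by
      rw [e5 a b c, sw_apply hu _ _ _ _ (e3 a) e4 (D.par_e b) (D.par_e c), ← e5 a c b]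
  rw [s0 (isForm_sw (isForm_sw h hk0) hk1), s1 (isForm_sw h hk0), s0 h,
    s1 (isForm_sw (isForm_sw h hk1) hk0), s0 (isForm_sw h hk1), s1 h]
  ring

theorem sw_Iop_zero {n k : ℕ} {s : List U → F} (h : IsForm D n s) (p : U →ₗ[F] U)
    (hk : k + 2 ≤ n) : ∀ l, l.length = n + 2 →
      sw D (k + 2) (Iop D p s 0) l = Iop D p (sw D k s) 0 l := by
  intro l hl
  obtain ⟨x, y, l', rfl⟩ : ∃ x y l', l = x :: y :: l' := by
    match l, hl with
    | x :: y :: l', _ => exact ⟨x, y, l', rfl⟩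
  obtain ⟨l₁, z, w, l₂, rfl, h1⟩ := swp_split l' k (by simp at hl; omega)
  have h2 : (x :: y :: l₁).length = k + 2 := by
    simp
    omega
  have h3 : x :: y :: (l₁ ++ z :: w :: l₂) = (x :: y :: l₁) ++ z :: w :: l₂ := rfl
  rw [h3, swp_sw _ (x :: y :: l₁) l₂ z w h2]
  simp only [List.cons_append, swp_Iop]
  rw [swp_sw s l₁ l₂ z w h1]
  ring

theorem ctr_sw {n k : ℕ} {t : List U → F} (h : IsForm D (n + 2) t) (hk : k + 2 ≤ n) :
    ∀ l, l.length = n → ctr D 0 (sw D (k + 2) t) l = sw D k (ctr D 0 t) l := by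
  intro l hl
  obtain ⟨l₁, z, w, l₂, rfl, h1⟩ := swp_split l k (by omega)
  rw [swp_ctr, swp_sw _ l₁ l₂ z w h1]
  simp only [swp_ctr]
  rw [← Finset.sum_add_distrib, ← Finset.sum_add_distrib, ← Finset.sum_sub_distrib,
    Finset.mul_sum]
  refine Finset.sum_congr rfl fun i _ => ?_
  have h2 : (D.e i :: D.f i :: l₁).length = k + 2 := by
    simp
    omega
  exact swp_sw t (D.e i :: D.f i :: l₁) l₂ z w h2

theorem ctε_sw {n k : ℕ} {t : List U → F} (h : IsForm D (n + 2) t) (hk : k + 2 ≤ n) :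
    ∀ l, l.length = n → ctε D (sw D (k + 2) t) l = sw D k (ctε D t) l := by
  intro l hl
  obtain ⟨l₁, z, w, l₂, rfl, h1⟩ := swp_split l k (by omega)
  rw [swp_sw _ l₁ l₂ z w h1]
  unfold ctε
  rw [← Finset.sum_add_distrib, ← Finset.sum_add_distrib, ← Finset.sum_sub_distrib,
    Finset.mul_sum]
  refine Finset.sum_congr rfl fun i _ => ?_
  have h2 : (D.ε (D.e i) :: D.f i :: l₁).length = k + 2 := by
    simp
    omega
  exact swp_sw t (D.ε (D.e i) :: D.f i :: l₁) l₂ z w h2

theorem ctr_Iop_zero {n : ℕ} {s : List U → F} (p : U →ₗ[F] U) : ∀ l : List U, l.length = n →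
    ctr D 0 (Iop D p s 0) l = (∑ i, D.B (p (D.e i)) (D.f i)) * s l := by
  intro l _
  rw [swp_ctr, Finset.sum_mul]
  refine Finset.sum_congr rfl fun i _ => ?_
  rw [swp_Iop, mul_comm]

theorem ctε_Iop_zero {n : ℕ} {s : List U → F} (p : U →ₗ[F] U) : ∀ l : List U, l.length = n →
    ctε D (Iop D p s 0) l = (∑ i, D.B (p (D.ε (D.e i))) (D.f i)) * s l := by
  intro l _
  unfold ctε
  rw [Finset.sum_mul]
  refine Finset.sum_congr rfl fun i _ => ?_
  rw [swp_Iop, mul_comm]

/-- the zigzag identity -/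
theorem zigzag {n : ℕ} {s : List U → F} (h : IsForm D n s) {p : U →ₗ[F] U} (hp : SymEven D p)
    (hs : PSt p n s) (hn : 1 ≤ n) : ∀ l, l.length = n →
      ctr D 0 (sw D 1 (Iop D p s 0)) l = s l := by
  intro l hl
  obtain ⟨x, l', rfl⟩ : ∃ x l', l = x :: l' := by
    cases l with
    | nil => simp at hl; omega
    | cons x l' => exact ⟨x, l', rfl⟩
  have hl' : ([] : List U).length + l'.length + 1 = n := by simpa using hl
  have key1 : ∀ z : U, ∑ i, s (D.f i :: l') * D.B (p (D.e i)) z = s (D.ε (p z) :: l') := by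
    intro z
    have h1 := h.sum [] l' hl' Finset.univ (fun i => D.B (D.e i) (p z)) D.f
    rw [D.zag' (p z)] at h1
    rw [List.nil_append] at h1
    rw [h1]
    refine Finset.sum_congr rfl fun i _ => ?_
    rw [hp.symm, mul_comm]
    rfl
  have key2 : ∀ z : U, ∑ i, s (D.ε (D.f i) :: l') * D.B (p (D.e i)) z = s (p z :: l') := by
    intro z
    have h1 := h.sum [] l' hl' Finset.univ (fun i => D.B (D.e i) (p z)) (fun i => D.ε (D.f i))
    have h2 : ∑ i, D.B (D.e i) (p z) • D.ε (D.f i) = p z := by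
      have h3 := congrArg D.ε (D.zag' (p z))
      rw [map_sum, D.εε] at h3
      exact (Finset.sum_congr rfl fun i _ => (map_smul D.ε _ _).symm).trans h3
    rw [h2, List.nil_append] at h1
    rw [h1]
    refine Finset.sum_congr rfl fun i _ => ?_
    rw [hp.symm, mul_comm]
    rfl
  rw [swp_ctr]
  have h4 : ∀ i, sw D 1 (Iop D p s 0) (D.e i :: D.f i :: x :: l') =
      2⁻¹ * (s (D.f i :: l') * D.B (p (D.e i)) x + s (D.ε (D.f i) :: l') * D.B (p (D.e i)) x +
        s (D.f i :: l') * D.B (p (D.e i)) (D.ε x) -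
        s (D.ε (D.f i) :: l') * D.B (p (D.e i)) (D.ε x)) := by
    intro i
    have h5 := swp_sw (D := D) (Iop D p s 0) [D.e i] l' (D.f i) x (k := 1) rfl
    simp only [List.singleton_append, swp_Iop] at h5
    exact h5
  rw [Finset.sum_congr rfl fun i _ => h4 i, ← Finset.mul_sum, Finset.sum_sub_distrib,
    Finset.sum_add_distrib, Finset.sum_add_distrib, key1, key2, key1, key2, hp.even, D.εε]
  have h6 := hs [] l' x hl'
  simp only [List.nil_append] at h6
  rw [h6]
  have h2 : (2 : F) ≠ 0 := two_ne_zero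
  field_simp
  ring

/-- the zigzag identity with the parity operator -/
theorem zigzag_ε {n : ℕ} {s : List U → F} (h : IsForm D n s) {p : U →ₗ[F] U} (hp : SymEven D p)
    (hs : PSt p n s) (hn : 1 ≤ n) : ∀ l, l.length = n →
      ctε D (sw D 1 (Iop D p s 0)) l = slt 0 D.ε s l := by
  intro l hl
  obtain ⟨x, l', rfl⟩ : ∃ x l', l = x :: l' := by
    cases l with
    | nil => simp at hl; omega
    | cons x l' => exact ⟨x, l', rfl⟩
  have hl' : ([] : List U).length + l'.length + 1 = n := by simpa using hl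
  have hB : ∀ i (z : U), D.B (p (D.ε (D.e i))) z = D.B (D.e i) (D.ε (p z)) := by
    intro i z
    rw [hp.symm, swp_Bε]
  have key1 : ∀ z : U, ∑ i, s (D.f i :: l') * D.B (p (D.ε (D.e i))) z = s (p z :: l') := by
    intro z
    have h1 := h.sum [] l' hl' Finset.univ (fun i => D.B (D.e i) (D.ε (p z))) D.f
    rw [D.zag' (D.ε (p z)), D.εε, List.nil_append] at h1
    rw [h1]
    refine Finset.sum_congr rfl fun i _ => ?_
    rw [hB, mul_comm]
    rfl
  have key2 : ∀ z : U, ∑ i, s (D.ε (D.f i) :: l') * D.B (p (D.ε (D.e i))) z =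
      s (D.ε (p z) :: l') := by
    intro z
    have h1 := h.sum [] l' hl' Finset.univ (fun i => D.B (D.e i) (D.ε (p z)))
      (fun i => D.ε (D.f i))
    have h2 : ∑ i, D.B (D.e i) (D.ε (p z)) • D.ε (D.f i) = D.ε (p z) := by
      have h3 := congrArg D.ε (D.zag' (D.ε (p z)))
      rw [map_sum, D.εε] at h3
      exact (Finset.sum_congr rfl fun i _ => (map_smul D.ε _ _).symm).trans h3
    rw [h2, List.nil_append] at h1
    rw [h1]
    refine Finset.sum_congr rfl fun i _ => ?_
    rw [hB, mul_comm]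
    rfl
  have h7 : slt 0 D.ε s (x :: l') = s (D.ε x :: l') := slt_apply D.ε s [] l' x rfl
  rw [h7]
  unfold ctε
  have h4 : ∀ i, sw D 1 (Iop D p s 0) (D.ε (D.e i) :: D.f i :: x :: l') =
      2⁻¹ * (s (D.f i :: l') * D.B (p (D.ε (D.e i))) x +
        s (D.ε (D.f i) :: l') * D.B (p (D.ε (D.e i))) x +
        s (D.f i :: l') * D.B (p (D.ε (D.e i))) (D.ε x) -
        s (D.ε (D.f i) :: l') * D.B (p (D.ε (D.e i))) (D.ε x)) := by
    intro i
    have h5 := swp_sw (D := D) (Iop D p s 0) [D.ε (D.e i)] l' (D.f i) x (k := 1) rfl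
    simp only [List.singleton_append, swp_Iop] at h5
    exact h5
  rw [Finset.sum_congr rfl fun i _ => h4 i, ← Finset.mul_sum, Finset.sum_sub_distrib,
    Finset.sum_add_distrib, Finset.sum_add_distrib, key1, key2, key1, key2, hp.even, D.εε]
  have h6 := hs [] l' (D.ε x) hl'
  simp only [List.nil_append] at h6
  rw [hp.even] at h6
  rw [h6]
  have h2 : (2 : F) ≠ 0 := two_ne_zero
  field_simp
  ring

/-- the parity operator moves with its slot -/
theorem sw_slt_ε {n k : ℕ} {t : List U → F} (h : IsForm D n t) (hk : k + 2 ≤ n) :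
    ∀ l, l.length = n → sw D k (slt k D.ε t) l = slt (k + 1) D.ε (sw D k t) l := by
  intro l hl
  obtain ⟨l₁, x, y, l₂, rfl, h1⟩ := swp_split l k (by omega)
  have h2 : (l₁ ++ [x]).length = k + 1 := by
    simp
    omega
  have h3 : l₁ ++ x :: y :: l₂ = (l₁ ++ [x]) ++ y :: l₂ := by simp
  have h4 : slt (k + 1) D.ε (sw D k t) (l₁ ++ x :: y :: l₂) =
      sw D k t (l₁ ++ x :: D.ε y :: l₂) := by
    rw [h3, slt_apply D.ε _ (l₁ ++ [x]) l₂ y h2]
    simp
  rw [h4, swp_sw _ l₁ l₂ x y h1, swp_sw _ l₁ l₂ x (D.ε y) h1, slt_apply D.ε _ l₁ _ _ h1,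
    slt_apply D.ε _ l₁ _ _ h1, slt_apply D.ε _ l₁ _ _ h1, slt_apply D.ε _ l₁ _ _ h1]

end Pool.Agent.NS3
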