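import Pool.Agent.NS3.Num
import Pool.Agent.NS3.Rec
import Pool.Agent.NS3.Dom

/-!
# A linear system modulo numerical equivalence

A form with `m` slots is determined by its values on the words in the basis `D.e`. On these
coordinates `act D ρ` is a signed permutation (`Sys_word`), hence the map
`(s l) ↦ (χ s l + ∑ (j ≠ l) act (ρ l j) (s j))` is injective on the coordinates (`dominance`); it
preserves the families of numerically trivial forms, so `stable_mem` applies.
-/

namespace Pool.Agent.NS3

open Pool.Agent.Helper89.NN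

universe u v w

variable {F : Type u} [Field F] [CharZero F] {U : Type v} [AddCommGroup U] [Module F U]
  {ι : Type w} [Fintype ι] {D : SS F U ι} {alg : ℕ → (List U → F) → Prop}

/-- the Koszul sign is an integer of absolute value one -/
private lemma Sys_sg (a b : Bool) : ∃ κ : ℤ, |κ| ≤ 1 ∧ sg F a b = (κ : F) := by
  unfold sg
  split_ifs
  · exact ⟨-1, by simp, by simp⟩
  · exact ⟨1, by simp, by simp⟩

/-- a word of transpositions is a signed permutation of the coordinates -/
private lemma Sys_word {m : ℕ} (ρ : List ℕ) (hρ : Valid m ρ) (L : List ι) (hL : L.length = m) :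
    ∃ L' : List ι, L'.length = m ∧ ∃ κ : ℤ, |κ| ≤ 1 ∧ ∀ t : List U → F, IsForm D m t →
      act D ρ t (L.map D.e) = (κ : F) * t (L'.map D.e) := by
  induction ρ generalizing L with
  | nil => exact ⟨L, hL, 1, by simp, fun t _ => by simp [act]⟩
  | cons k ρ ih =>
    have hk : k + 2 ≤ m := hρ k (by simp)
    have hρ' : Valid m ρ := fun k' hk' => hρ k' (by simp [hk'])
    have h1 : L.take k ++ L.drop k = L := List.take_append_drop k L
    have h2 : (L.take k).length = k := by simp; omega
    have h3 : (L.drop k).length = m - k := by simp [hL]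
    generalize L.take k = l₁ at h1 h2
    generalize L.drop k = l₃ at h1 h3
    match l₃, h1, h3 with
    | [], _, h3 => simp at h3; omega
    | [_], _, h3 => simp at h3; omega
    | x :: y :: l₂, h1, h3 =>
      obtain ⟨κ₁, hκ₁, e₁⟩ := Sys_sg (F := F) (D.p x) (D.p y)
      obtain ⟨L', hL', κ, hκ, e⟩ := ih hρ' (l₁ ++ y :: x :: l₂) (by
        rw [← hL, ← h1]; simp)
      refine ⟨L', hL', κ₁ * κ, ?_, fun t ht => ?_⟩
      · rw [abs_mul]
        exact mul_le_one₀ hκ₁ (abs_nonneg _) hκ
      · have h4 : k + (l₂.map D.e).length + 2 = m := by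
          rw [← hL, ← h1]; simp [h2]; omega
        have h5 := sw_apply (isForm_act ht ρ hρ') (l₁.map D.e) (l₂.map D.e) (D.e x) (D.e y)
          (i := k) (by simp [h2]) h4 (D.par_e x) (D.par_e y)
        have h6 := e t ht
        rw [← h1]
        simp only [List.map_append, List.map_cons] at h6 ⊢
        show sw D k (act D ρ t) _ = _
        rw [h5, h6, e₁]
        push_cast
        ring

/-- every word is the word of a function -/
private lemma Sys_ofFn {m : ℕ} (L : List ι) (hL : L.length = m) :
    ∃ w : Fin m → ι, List.ofFn w = L := by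
  subst hL
  exact ⟨L.get, List.ofFn_get L⟩

/-- the same for words indexed by functions -/
private lemma Sys_fn {m : ℕ} (ρ : List ℕ) (hρ : Valid m ρ) (w : Fin m → ι) :
    ∃ (w' : Fin m → ι) (κ : ℤ), |κ| ≤ 1 ∧ ∀ t : List U → F, IsForm D m t →
      act D ρ t ((List.ofFn w).map D.e) = (κ : F) * t ((List.ofFn w').map D.e) := by
  obtain ⟨L', hL', κ, hκ, e⟩ := Sys_word (D := D) ρ hρ (List.ofFn w) (by simp)
  obtain ⟨w', rfl⟩ := Sys_ofFn L' hL'
  exact ⟨w', κ, hκ, e⟩

private lemma Sys_zero (m : ℕ) : IsForm D m (fun _ => (0 : F)) where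
  add _ _ _ _ _ := by simp
  smul _ _ _ _ _ := by simp
  even _ _ := rfl

theorem sys (hA : AlgForms D alg) {m : ℕ} (ρ : Fin (m + 1) → Fin (m + 1) → List ℕ)
    (hρ : ∀ l j, Valid m (ρ l j)) (χ : ℤ) (hχ : (m : ℤ) < |χ|) (s : Fin (m + 1) → List U → F)
    (hs : ∀ l, IsForm D m (s l))
    (h : ∀ l, Nt D alg m (fun L => (χ : F) * s l L +
      ∑ j ∈ Finset.univ.erase l, act D (ρ l j) (s j) L)) :
    ∀ l, Nt D alg m (s l) := by
  classical
  choose φ κ hκ e using fun (l j : Fin (m + 1)) (w : Fin m → ι) =>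
    Sys_fn (D := D) (ρ l j) (hρ l j) w
  let T : (Fin (m + 1) → List U → F) → Fin (m + 1) → List U → F := fun t l L =>
    (χ : F) * t l L + ∑ j ∈ Finset.univ.erase l, act D (ρ l j) (t j) L
  have hT : ∀ t : Fin (m + 1) → List U → F, (∀ l, IsForm D m (t l)) →
      ∀ l, IsForm D m (T t l) := fun t ht l =>
    isForm_add (isForm_smul (ht l) _) (isForm_sum _ fun j _ => isForm_act (ht j) _ (hρ l j))
  have hT' : ∀ t : Fin (m + 1) → List U → F, (∀ l, IsForm D m (t l)) →
      (∀ l, Nt D alg m (t l)) → ∀ l, Nt D alg m (T t l) := fun t ht hn l =>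
    Nt_add (Nt_smul (hn l) _) (Nt_sum _ fun j _ => Nt_act hA (ht j) (hn j) _ (hρ l j))
  let M : (Fin (m + 1) → (Fin m → ι) → F) →ₗ[F] (Fin (m + 1) → (Fin m → ι) → F) :=
    { toFun := fun x l w => (χ : F) * x l w +
        ∑ j ∈ Finset.univ.erase l, (κ l j w : F) * x j (φ l j w)
      map_add' := fun x y => by
        funext l w
        simp only [Pi.add_apply, mul_add, Finset.sum_add_distrib]
        ring
      map_smul' := fun c x => by
        funext l w
        simp only [Pi.smul_apply, smul_eq_mul, RingHom.id_apply, mul_add, Finset.mul_sum]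
        congr 1
        · ring
        · exact Finset.sum_congr rfl fun j _ => by ring }
  let co : (Fin (m + 1) → List U → F) → Fin (m + 1) → (Fin m → ι) → F := fun t l w =>
    t l ((List.ofFn w).map D.e)
  have hM : ∀ t : Fin (m + 1) → List U → F, (∀ l, IsForm D m (t l)) → M (co t) = co (T t) := by
    intro t ht
    funext l w
    show (χ : F) * t l _ + ∑ j ∈ Finset.univ.erase l, (κ l j w : F) * t j _ =
      (χ : F) * t l _ + ∑ j ∈ Finset.univ.erase l, act D (ρ l j) (t j) _
    congr 1
    exact Finset.sum_congr rfl fun j _ => (e l j w (t j) (ht j)).symm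
  have hinj : ∀ x, M x = 0 → x = 0 := by
    intro x hx
    have hd := dominance (I := Fin (m + 1) × (Fin m → ι)) χ hχ (fun i => x i.1 i.2)
      (fun j i => (i.1.succAbove j, φ i.1 (i.1.succAbove j) i.2))
      (fun j i => κ i.1 (i.1.succAbove j) i.2) (fun j i => hκ _ _ _) (fun i => by
        have h1 : M x i.1 i.2 = 0 := by rw [hx]; rfl
        have h2 : ∑ j ∈ Finset.univ.erase i.1, (κ i.1 j i.2 : F) * x j (φ i.1 j i.2) =
            ∑ j : Fin m, (κ i.1 (i.1.succAbove j) i.2 : F) *
              x (i.1.succAbove j) (φ i.1 (i.1.succAbove j) i.2) := by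
          have h3 := Finset.add_sum_erase Finset.univ
            (fun j => (κ i.1 j i.2 : F) * x j (φ i.1 j i.2)) (Finset.mem_univ i.1)
          rw [Fin.sum_univ_succAbove _ i.1] at h3
          exact add_left_cancel h3
        rw [← h2]
        exact h1)
    funext l w
    exact hd (l, w)
  let W : Submodule F (Fin (m + 1) → (Fin m → ι) → F) :=
    { carrier := {x | ∃ t : Fin (m + 1) → List U → F, (∀ l, IsForm D m (t l)) ∧
        (∀ l, Nt D alg m (t l)) ∧ x = co t}
      add_mem' := by
        rintro x y ⟨t, ht, hn, rfl⟩ ⟨t', ht', hn', rfl⟩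
        exact ⟨fun l L => t l L + t' l L, fun l => isForm_add (ht l) (ht' l),
          fun l => Nt_add (hn l) (hn' l), rfl⟩
      zero_mem' := ⟨fun _ _ => 0, fun _ => Sys_zero m,
        fun _ t _ => cn_zero_left m t [] [], rfl⟩
      smul_mem' := by
        rintro c x ⟨t, ht, hn, rfl⟩
        exact ⟨fun l L => c * t l L, fun l => isForm_smul (ht l) c,
          fun l => Nt_smul (hn l) c, rfl⟩ }
  have hmem : co s ∈ W := by
    refine stable_mem M hinj W ?_ ?_
    · rintro x ⟨t, ht, hn, rfl⟩
      exact ⟨T t, hT t ht, hT' t ht hn, hM t ht⟩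
    · exact ⟨T s, hT s hs, h, hM s hs⟩
  obtain ⟨t, ht, hn, hco⟩ := hmem
  intro l
  refine Nt_congr (hn l) ((hs l).ext_e (ht l) fun L hL => ?_)
  obtain ⟨w, rfl⟩ := Sys_ofFn L hL
  exact congrFun (congrFun hco l) w

end Pool.Agent.NS3
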